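import Mathlib
import Pool.Agent.Y263.SC.Mk

/-!
Supporting complex lines of bounded strictly convex domains of `ℂ²`.
-/

set_option autoImplicit false

open Metric Set Filter Topology

namespace Pool.Agent.Helper85K9.SC

open Pool.Agent.Y263.SC

variable {D O : Set (ℂ × ℂ)} {ρ : ℂ × ℂ → ℝ}

theorem cl_Nb {d : ℝ} (hd : 0 < d) : closure D ⊆ Nb D d := by
  intro p hp
  obtain ⟨q, hq, hpq⟩ := Metric.mem_closure_iff.1 hp (d / 2) (by positivity)
  refine ⟨q, hq, ?_⟩
  rw [Prod.dist_eq, max_lt_iff, dist_eq_norm, dist_eq_norm] at hpq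
  linarith [hpq.1, hpq.2]

theorem rho_le (h : StrC D O ρ) {p : ℂ × ℂ} (hp : p ∈ closure D) : ρ p ≤ 0 := by
  have h1 : ContinuousWithinAt ρ D p := (h.C2.continuousOn p (h.cl hp)).mono h.sub
  have h2 := h1.mem_closure_image hp
  have h3 : closure (ρ '' D) ⊆ Iic 0 := by
    refine closure_minimal ?_ isClosed_Iic
    rintro _ ⟨q, hq, rfl⟩
    rw [h.eq] at hq
    exact hq.2.le
  exact h3 h2

theorem rho_zero (h : StrC D O ρ) {p : ℂ × ℂ} (hp : p ∈ frontier D) : ρ p = 0 := by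
  refine le_antisymm (rho_le h hp.1) ?_
  by_contra hlt
  push Not at hlt
  apply hp.2
  rw [h.op.interior_eq, h.eq]
  exact ⟨h.cl hp.1, hlt⟩

theorem nrm_pos {v : ℂ × ℂ} (hv : v ≠ 0) : 0 < ‖v.1‖ ^ 2 + ‖v.2‖ ^ 2 := by
  by_contra hno
  push Not at hno
  apply hv
  have h1 : ‖v.1‖ = 0 := by nlinarith [norm_nonneg v.1, sq_nonneg ‖v.1‖, sq_nonneg ‖v.2‖]
  have h2 : ‖v.2‖ = 0 := by nlinarith [norm_nonneg v.2, sq_nonneg ‖v.1‖, sq_nonneg ‖v.2‖]
  exact Prod.ext (norm_eq_zero.1 h1) (norm_eq_zero.1 h2)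

theorem dr_neg (h : StrC D O ρ) {p z : ℂ × ℂ} (hp : p ∈ frontier D) (hz : z ∈ closure D)
    (hpz : z ≠ p) : fderiv ℝ ρ p (z - p) < 0 := by
  have hne : D.Nonempty := closure_nonempty_iff.1 ⟨z, hz⟩
  obtain ⟨d, l, hd, hl, hO, hH⟩ := h.unif hne
  have h1 := h.conv0 hO hH (cl_Nb hd hp.1) (cl_Nb hd hz)
  have h2 := nrm_pos (sub_ne_zero.2 hpz)
  have h3 := rho_zero h hp
  have h4 := rho_le h hz
  have h5 := mul_pos hl h2
  linarith

theorem mid_mem (h : StrC D O ρ) {p z : ℂ × ℂ} (hp : p ∈ closure D) (hz : z ∈ closure D)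
    (hpz : z ≠ p) : (1 / 2 : ℝ) • p + (1 / 2 : ℝ) • z ∈ D := by
  have hne : D.Nonempty := closure_nonempty_iff.1 ⟨z, hz⟩
  obtain ⟨d, l, hd, hl, hO, hH⟩ := h.unif hne
  obtain ⟨m, hm⟩ : ∃ m : ℂ × ℂ, m = (1 / 2 : ℝ) • p + (1 / 2 : ℝ) • z := ⟨_, rfl⟩
  rw [← hm]
  have hmc : m ∈ closure D := by
    rw [hm]
    exact h.cvx.closure hp hz (by norm_num) (by norm_num) (by norm_num)
  have h1 := h.conv0 hO hH (cl_Nb hd hmc) (cl_Nb hd hp)
  have h2 := h.conv0 hO hH (cl_Nb hd hmc) (cl_Nb hd hz)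
  have e1 : (p - m) + (z - m) = 0 := by
    have e2 : (2 : ℝ) • m = p + z := by
      rw [hm, smul_add, smul_smul, smul_smul]
      norm_num
    have e3 : (2 : ℝ) • m = m + m := two_smul ℝ m
    rw [e3] at e2
    rw [show (p - m) + (z - m) = (p + z) - (m + m) by abel, e2, sub_self]
  have e4 : fderiv ℝ ρ m (p - m) + fderiv ℝ ρ m (z - m) = 0 := by
    rw [← map_add, e1, map_zero]
  have h3 : p - m ≠ 0 := by
    intro h0
    have e5 : z - m = 0 := by
      rw [h0, zero_add] at e1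
      exact e1
    exact hpz ((sub_eq_zero.1 e5).trans (sub_eq_zero.1 h0).symm)
  have h4 := mul_pos hl (nrm_pos h3)
  have h5 : 0 ≤ l * (‖(z - m).1‖ ^ 2 + ‖(z - m).2‖ ^ 2) := by positivity
  have h6 := rho_le h hp
  have h7 := rho_le h hz
  rw [h.eq]
  refine ⟨h.cl hmc, ?_⟩
  linarith

/-- a supporting complex line touches the closure only at one point -/
theorem supp_near (h : StrC D O ρ) {p : ℂ × ℂ} (hp : p ∈ closure D) {α : ℂ × ℂ →L[ℂ] ℂ}
    (hα : α p ∉ α '' D) {r : ℝ} (hr : 0 < r) : ∃ η : ℝ, 0 < η ∧ ∀ z ∈ D, ‖α z - α p‖ < η →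
      z ∈ ball p r := by
  have hK : IsCompact (closure D \ ball p r) := h.bdd.isCompact_closure.diff isOpen_ball
  rcases (closure D \ ball p r).eq_empty_or_nonempty with he | hne
  · refine ⟨1, one_pos, fun z hz _ => ?_⟩
    by_contra hno
    have : z ∈ closure D \ ball p r := ⟨subset_closure hz, hno⟩
    rw [he] at this
    exact this
  · obtain ⟨x, hx, hmin⟩ := hK.exists_isMinOn (f := fun z => ‖α z - α p‖) hne (by fun_prop)
    have hxp : x ≠ p := by
      rintro rfl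
      exact hx.2 (mem_ball_self hr)
    have hpos : 0 < ‖α x - α p‖ := by
      rw [norm_pos_iff]
      intro h0
      apply hα
      refine ⟨_, mid_mem h hp hx.1 hxp, ?_⟩
      have h1 : α x = α p := sub_eq_zero.1 h0
      have h2 : ∀ (t : ℝ) (v : ℂ × ℂ), α (t • v) = (t : ℂ) * α v := by
        intro t v
        have : t • v = (t : ℂ) • v := by
          ext <;> simp
        rw [this, map_smul, smul_eq_mul]
      rw [map_add, h2, h2, h1]
      push_cast
      ring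
    refine ⟨_, hpos, fun z hz hlt => ?_⟩
    by_contra hno
    have h1 : ‖α x - α p‖ ≤ ‖α z - α p‖ := hmin (show z ∈ closure D \ ball p r from
      ⟨subset_closure hz, hno⟩)
    exact absurd hlt (not_lt.2 h1)

/-- the complex gradient -/
noncomputable def cg (ρ : ℂ × ℂ → ℝ) (p : ℂ × ℂ) : ℂ × ℂ →L[ℂ] ℂ :=
  fa ρ p • ContinuousLinearMap.fst ℂ ℂ ℂ + fb ρ p • ContinuousLinearMap.snd ℂ ℂ ℂ

theorem re_cg (p v : ℂ × ℂ) : 2 * (cg ρ p v).re = fderiv ℝ ρ p v := by
  rw [← re_fa_fb]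
  simp [cg]

theorem cg_supp (h : StrC D O ρ) {p : ℂ × ℂ} (hp : p ∈ frontier D) : cg ρ p p ∉ cg ρ p '' D := by
  rintro ⟨z, hz, hzp⟩
  have hne : z ≠ p := by
    rintro rfl
    exact hp.2 (by rwa [h.op.interior_eq])
  have h1 := dr_neg h hp (subset_closure hz) hne
  rw [← re_cg, map_sub, hzp, sub_self, Complex.zero_re, mul_zero] at h1
  exact lt_irrefl _ h1

theorem supp_eq (h : StrC D O ρ) (hne : D.Nonempty) {p : ℂ × ℂ} (hp : p ∈ frontier D)
    {α : ℂ × ℂ →L[ℂ] ℂ} (hα : α p ∉ α '' D) : ∃ c : ℂ, c ≠ 0 ∧ α = c • cg ρ p := by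
  have hα0 : α ≠ 0 := by
    rintro rfl
    obtain ⟨z, hz⟩ := hne
    exact hα ⟨z, hz, by simp⟩
  have hop : IsOpen (α '' D) := (α.isOpenMap (by
    obtain ⟨T, hT⟩ := (show ∃ v, α v ≠ 0 from by
      by_contra hno
      push Not at hno
      exact hα0 (ContinuousLinearMap.ext hno))
    intro w
    refine ⟨(w / α T) • T, ?_⟩
    rw [map_smul, smul_eq_mul, div_mul_cancel₀ _ hT])) _ h.op
  have hcv : Convex ℝ (α '' D) := h.cvx.linear_image (α.restrictScalars ℝ).toLinearMap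
  obtain ⟨f, hf⟩ := RCLike.geometric_hahn_banach_open_point (𝕜 := ℂ) hcv hop hα
  obtain ⟨c₁, hc₁⟩ : ∃ c : ℂ, c = f 1 := ⟨_, rfl⟩
  have hfw : ∀ w : ℂ, f w = c₁ * w := by
    intro w
    have : w = w • (1 : ℂ) := by simp
    conv_lhs => rw [this]
    rw [map_smul, smul_eq_mul, hc₁, mul_comm]
  have hb : ∀ z ∈ D, (c₁ * α (z - p)).re < 0 := by
    intro z hz
    have h1 : (f (α z)).re < (f (α p)).re := hf (α z) (mem_image_of_mem _ hz)
    rw [hfw, hfw] at h1
    rw [map_sub, mul_sub, Complex.sub_re]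
    linarith
  have hp0 : p ∈ closure D := hp.1
  -- directions pointing into the domain
  have hdir : ∀ v : ℂ × ℂ, (cg ρ p v).re < 0 → (c₁ * α v).re < 0 := by
    intro v hv
    have hd : fderiv ℝ ρ p v < 0 := by
      rw [← re_cg]
      linarith
    have hγ : HasDerivAt (fun t : ℝ => p + t • v) v 0 := by
      have := ((hasDerivAt_id (0 : ℝ)).smul_const v).const_add p
      simpa using this
    have hg : HasDerivAt (fun t : ℝ => ρ (p + t • v)) (fderiv ℝ ρ p v) 0 := by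
      have h1 : HasFDerivAt ρ (fderiv ℝ ρ p) (p + (0 : ℝ) • v) := by
        rw [zero_smul, add_zero]
        exact h.d1 (h.cl hp0)
      exact h1.comp_hasDerivAt 0 hγ
    have h1 : ∀ᶠ t in 𝓝[>] (0 : ℝ), ρ (p + t • v) < 0 := by
      have h2 := hg.tendsto_slope_zero_right
      have h3 : ∀ᶠ t in 𝓝[>] (0 : ℝ), t⁻¹ • (ρ (p + (0 + t) • v) - ρ (p + (0 : ℝ) • v)) < 0 :=
        h2.eventually (gt_mem_nhds hd)
      filter_upwards [h3, self_mem_nhdsWithin] with t ht ht0
      rw [zero_add, zero_smul, add_zero, rho_zero h hp, sub_zero, smul_eq_mul] at ht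
      have ht0' : (0 : ℝ) < t := ht0
      have h4 := inv_pos.2 ht0'
      by_contra hge
      push Not at hge
      have := mul_nonneg h4.le hge
      linarith
    have h2 : ∀ᶠ t in 𝓝[>] (0 : ℝ), p + t • v ∈ O := by
      have h3 : Tendsto (fun t : ℝ => p + t • v) (𝓝[>] 0) (𝓝 p) := by
        have h4 : ContinuousAt (fun t : ℝ => p + t • v) 0 := hγ.continuousAt
        have h5 := h4.tendsto
        simp only [zero_smul, add_zero] at h5
        exact h5.mono_left nhdsWithin_le_nhds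
      exact h3.eventually (h.Oo.mem_nhds (h.cl hp0))
    obtain ⟨t, ht1, ht2, ht0⟩ := (h1.and (h2.and self_mem_nhdsWithin)).exists
    have ht0' : (0 : ℝ) < t := ht0
    have hmem : p + t • v ∈ D := by
      rw [h.eq]
      exact ⟨ht2, ht1⟩
    have h3 := hb _ hmem
    have h4 : p + t • v - p = (t : ℂ) • v := by
      rw [add_sub_cancel_left]
      ext <;> simp
    rw [h4, map_smul, smul_eq_mul, mul_left_comm, Complex.re_ofReal_mul] at h3
    by_contra hge
    push Not at hge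
    have := mul_nonneg ht0'.le hge
    linarith
  obtain ⟨z₀, hz₀⟩ := hne
  obtain ⟨v₀, hv₀⟩ : ∃ v : ℂ × ℂ, v = z₀ - p := ⟨_, rfl⟩
  have hz₀p : z₀ ≠ p := by
    rintro rfl
    exact hp.2 (by rwa [h.op.interior_eq])
  have ha0 : (cg ρ p v₀).re < 0 := by
    have := dr_neg h hp (subset_closure hz₀) hz₀p
    rw [← re_cg, ← hv₀] at this
    linarith
  have hb0 := hdir v₀ ha0
  have hker : ∀ v : ℂ × ℂ, (cg ρ p v).re = 0 → (c₁ * α v).re = 0 := by
    intro v hv
    by_contra hne0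
    obtain ⟨t, ht⟩ : ∃ t : ℝ, t = (1 - (c₁ * α v₀).re) / (c₁ * α v).re := ⟨_, rfl⟩
    have h1 : (cg ρ p ((t : ℂ) • v + v₀)).re < 0 := by
      rw [map_add, map_smul, smul_eq_mul, Complex.add_re, Complex.re_ofReal_mul, hv, mul_zero,
        zero_add]
      exact ha0
    have h2 := hdir _ h1
    rw [map_add, map_smul, smul_eq_mul, mul_add, mul_left_comm, Complex.add_re,
      Complex.re_ofReal_mul, ht, div_mul_cancel₀ _ hne0] at h2
    linarith
  obtain ⟨s, hs⟩ : ∃ s : ℝ, s = (c₁ * α v₀).re / (cg ρ p v₀).re := ⟨_, rfl⟩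
  have hs0 : 0 < s := by
    rw [hs]
    exact div_pos_of_neg_of_neg hb0 ha0
  have hre : ∀ v : ℂ × ℂ, (c₁ * α v).re = s * (cg ρ p v).re := by
    intro v
    obtain ⟨t, ht⟩ : ∃ t : ℝ, t = (cg ρ p v).re / (cg ρ p v₀).re := ⟨_, rfl⟩
    have h1 : (cg ρ p (v - (t : ℂ) • v₀)).re = 0 := by
      rw [map_sub, map_smul, smul_eq_mul, Complex.sub_re, Complex.re_ofReal_mul, ht,
        div_mul_cancel₀ _ ha0.ne, sub_self]
    have h2 := hker _ h1
    rw [map_sub, map_smul, smul_eq_mul, mul_sub, mul_left_comm, Complex.sub_re,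
      Complex.re_ofReal_mul] at h2
    rw [hs]
    rw [ht] at h2
    have h3 : (c₁ * α v).re = (cg ρ p v).re / (cg ρ p v₀).re * (c₁ * α v₀).re := by linarith
    rw [h3]
    ring
  have heq : ∀ v : ℂ × ℂ, c₁ * α v = (s : ℂ) * cg ρ p v := by
    intro v
    apply Complex.ext
    · rw [hre v, Complex.re_ofReal_mul]
    · have h1 := hre (Complex.I • v)
      rw [map_smul, map_smul, smul_eq_mul, smul_eq_mul, mul_left_comm, Complex.I_mul_re,
        Complex.I_mul_re] at h1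
      rw [Complex.im_ofReal_mul]
      linarith
  have hc0 : c₁ ≠ 0 := by
    intro h0
    have := hb0
    rw [h0, zero_mul, Complex.zero_re] at this
    exact lt_irrefl _ this
  refine ⟨(s : ℂ) / c₁, div_ne_zero (by exact_mod_cast hs0.ne') hc0, ?_⟩
  ext1
  · ext1
    have := heq (1, 0)
    simp only [ContinuousLinearMap.coe_comp', Function.comp_apply, ContinuousLinearMap.inl_apply,
      ContinuousLinearMap.smul_apply, smul_eq_mul]
    field_simp
    linear_combination this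
  · ext1
    have := heq (0, 1)
    simp only [ContinuousLinearMap.coe_comp', Function.comp_apply, ContinuousLinearMap.inr_apply,
      ContinuousLinearMap.smul_apply, smul_eq_mul]
    field_simp
    linear_combination this

/-- supporting functionals are unique up to a factor -/
theorem supp_unique (h : StrC D O ρ) (hne : D.Nonempty) {p : ℂ × ℂ} (hp : p ∈ frontier D)
    {α β : ℂ × ℂ →L[ℂ] ℂ} (hα : α p ∉ α '' D) (hβ : β p ∉ β '' D) : ∃ c : ℂ, β = c • α := by
  obtain ⟨a, ha, h1⟩ := supp_eq h hne hp hα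
  obtain ⟨b, hb, h2⟩ := supp_eq h hne hp hβ
  refine ⟨b / a, ?_⟩
  rw [h1, h2, smul_smul, div_mul_cancel₀ _ ha]

end Pool.Agent.Helper85K9.SC
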