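import Mathlib
import Pool.Agent.Y263.SC.Exo
import Pool.Agent.Y263.LF.Sol
import Pool.Agent.H788R3.Cor3.Base3

/-!
Bounded extension from the slices of a strictly convex domain for functions given over an open part
of the base, and the resulting localisation theorem for one direction and an arbitrary tuple.
-/

set_option autoImplicit false
set_option linter.unusedSectionVars false

open MeasureTheory Set Filter Topology Complex Metric

namespace Pool.Agent.Helper85K9.SC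

open Pool.Agent.Y263.SC
open Pool.Agent.H720R2 Pool.Agent.H720R2.HP
open Pool.Agent.H788R3.Cor2 (cy cy_mem cy_diff yc yc_im cy_yc yc_diff cy_mem' cy_diffAt hcy_diffAt Dr)
open Pool.Agent.H788R3.Cor3 (open_all exhaust3)
open Pool.Agent.Y263.LF (solveY)

section

variable {D : Set (ℂ × ℂ)} {ρ : ℂ × ℂ → ℝ} {a b m : ℂ × ℂ → ℂ} {l L d B CW : ℝ}

/-- the extension of a measurable function from the slices -/
noncomputable def eeY (D : Set (ℂ × ℂ)) (ρ : ℂ × ℂ → ℝ) (a b m : ℂ × ℂ → ℂ) (κ : ℂ × ℂ → ℂ)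
    (ζ : ℂ) (p : ℂ × ℂ) : ℂ :=
  2 / Real.pi * JJ D ρ a b (Wf ρ b m) (fun η => κ (ζ, η)) ζ p.1 p.2

theorem eeY_meas (h : Dom2 D ρ a b m l L d B CW) {κ : ℂ × ℂ → ℂ} (hκ : Measurable κ)
    (y : ℂ) : Measurable (fun q : ℂ × ℂ => eeY D ρ a b m κ q.1 (q.2, y)) := by
  have hDo := h.scd.op
  have hρ := ind_meas hDo h.wt.rc
  have ha := ind_meas hDo h.wt.ac
  have hb := ind_meas hDo h.wt.bc
  have hW := ind_meas hDo h.wt.wc
  have hP : Measurable (fun x : (ℂ × ℂ) × ℂ => (x.1.1, x.2)) :=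
    (measurable_fst.comp measurable_fst).prodMk measurable_snd
  have hw : Measurable (fun x : (ℂ × ℂ) × ℂ => x.1.2) := measurable_snd.comp measurable_fst
  have hζ : Measurable (fun x : (ℂ × ℂ) × ℂ => x.1.1) := measurable_fst.comp measurable_fst
  have hη : Measurable (fun x : (ℂ × ℂ) × ℂ => x.2) := measurable_snd
  have hPh : Measurable (fun x : (ℂ × ℂ) × ℂ =>
      Ph (D.indicator ρ) (D.indicator a) (D.indicator b) x.1.1 x.2 x.1.2 y) := by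
    unfold Ph PL
    have h1 : Measurable (fun x : (ℂ × ℂ) × ℂ => ((-D.indicator ρ (x.1.1, x.2) : ℝ) : ℂ)) :=
      Complex.measurable_ofReal.comp (hρ.comp hP).neg
    exact h1.sub (((ha.comp hP).mul (hw.sub hζ)).add ((hb.comp hP).mul
      (measurable_const.sub hη)))
  have hF : Measurable (fun x : (ℂ × ℂ) × ℂ => (D.indicator (fun _ => (1 : ℂ)) (x.1.1, x.2)) *
      (κ (x.1.1, x.2) * (D.indicator (Wf ρ b m) (x.1.1, x.2) *
      (Ph (D.indicator ρ) (D.indicator a) (D.indicator b) x.1.1 x.2 x.1.2 y)⁻¹ ^ 3))) := by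
    have h1 : Measurable (D.indicator (fun _ => (1 : ℂ))) :=
      measurable_const.indicator hDo.measurableSet
    exact (h1.comp hP).mul ((hκ.comp hP).mul ((hW.comp hP).mul (hPh.inv.pow_const 3)))
  have hI := (hF.stronglyMeasurable.integral_prod_right' (ν := (volume : Measure ℂ))).measurable
  have heq : (fun q : ℂ × ℂ => eeY D ρ a b m κ q.1 (q.2, y)) = fun q : ℂ × ℂ =>
      2 / Real.pi * ∫ η : ℂ, (D.indicator (fun _ => (1 : ℂ)) (q.1, η)) *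
      (κ (q.1, η) * (D.indicator (Wf ρ b m) (q.1, η) *
      (Ph (D.indicator ρ) (D.indicator a) (D.indicator b) q.1 η q.2 y)⁻¹ ^ 3)) := by
    funext q
    unfold eeY JJ
    congr 1
    rw [← integral_indicator (Sl_open h.scd q.1).measurableSet]
    congr 1
    funext η
    by_cases hη : η ∈ Sl D q.1
    · have hη' : (q.1, η) ∈ D := hη
      rw [indicator_of_mem hη, indicator_of_mem hη', indicator_of_mem hη']
      unfold Ph
      rw [indicator_of_mem hη']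
      unfold PL
      rw [indicator_of_mem hη', indicator_of_mem hη', one_mul]
    · have hη' : (q.1, η) ∉ D := hη
      rw [indicator_of_notMem hη, indicator_of_notMem hη', zero_mul]
  rw [heq]
  exact hI.const_mul _

/-- **Bounded extension from the slices** for functions given over an open part of the base. -/
theorem extY (h : Dom2 D ρ a b m l L d B CW) (hne : D.Nonempty) :
    ∃ Cx : ℝ, 0 ≤ Cx ∧ ∀ (A O : Set ℂ) (k : ℂ × ℂ → ℂ) (K : ℝ), IsOpen O → A ⊆ O →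
      DifferentiableOn ℂ k {p | p ∈ D ∧ p.1 ∈ O} → (∀ p ∈ D, p.1 ∈ O → ‖k p‖ ≤ K) →
      (∀ ζ ∈ A, ∃ y, (ζ, y) ∈ D) →
      Ext D A (fun p => (k p)⁻¹) (Cx * K)
        (eeY D ρ a b m ({p : ℂ × ℂ | p ∈ D ∧ p.1 ∈ O}.indicator k)) := by
  obtain ⟨C, hC, hCb⟩ := JJ_bd h hne
  refine ⟨2 / Real.pi * C, by positivity, ?_⟩
  intro A O k K hO hAO hk hkb hA
  have hpi := Real.pi_pos
  have hTo : IsOpen {p : ℂ × ℂ | p ∈ D ∧ p.1 ∈ O} :=
    h.scd.op.inter (hO.preimage continuous_fst)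
  set κ : ℂ × ℂ → ℂ := {p : ℂ × ℂ | p ∈ D ∧ p.1 ∈ O}.indicator k with hκ
  have hκe : ∀ ζ ∈ A, ∀ η, (ζ, η) ∈ D → κ (ζ, η) = k (ζ, η) := by
    intro ζ hζ η hη
    rw [hκ, indicator_of_mem]
    exact ⟨hη, hAO hζ⟩
  have hκm : Measurable κ := ind_meas hTo hk.continuousOn
  have hkd : ∀ ζ ∈ A, DifferentiableOn ℂ (fun η => κ (ζ, η)) (Sl D ζ) := by
    intro ζ hζ
    have h1 : DifferentiableOn ℂ (fun η => k (ζ, η)) (Sl D ζ) := by
      refine hk.comp (g := k) (f := fun η : ℂ => (ζ, η)) (by fun_prop) ?_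
      intro η hη
      exact ⟨hη, hAO hζ⟩
    exact h1.congr (fun η hη => hκe ζ hζ η hη)
  have hkb' : ∀ ζ ∈ A, ∀ η ∈ Sl D ζ, ‖κ (ζ, η)‖ ≤ K := by
    intro ζ hζ η hη
    rw [hκe ζ hζ η hη]
    exact hkb _ hη (hAO hζ)
  refine ⟨eeY_meas h hκm, ?_, ?_, ?_⟩
  · intro ζ hζ y hy
    unfold eeY
    simp only
    rw [JJ_self h hy (hkd ζ hζ) (hkb' ζ hζ), hκe ζ hζ y hy, inv_inv]
    have : (Real.pi : ℂ) ≠ 0 := by exact_mod_cast hpi.ne'
    field_simp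
  · intro ζ hζ
    obtain ⟨y₀, hy₀⟩ := hA ζ hζ
    exact (JJ_diff h hy₀ (hkd ζ hζ) (hkb' ζ hζ)).const_mul _
  · intro ζ hζ p hp
    obtain ⟨y₀, hy₀⟩ := hA ζ hζ
    unfold eeY
    rw [norm_mul]
    have e : ‖((2 : ℂ) / (Real.pi : ℂ))‖ = 2 / Real.pi := by
      rw [norm_div, Complex.norm_real, Real.norm_of_nonneg hpi.le]
      simp
    rw [e, mul_assoc]
    refine mul_le_mul_of_nonneg_left ?_ (by positivity)
    exact hCb ζ y₀ hy₀ _ (hkd ζ hζ) _ (hkb' ζ hζ) p.1 p.2 hp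

end

/-- Bezout equation on domains over the half plane with bounded extensions, for nice `f i` -/
def SiegelY (N M : ℕ) (ε K Mx C : ℝ) : Prop :=
  ∀ (E : Type) [NormedAddCommGroup E] [NormedSpace ℂ E] [FiniteDimensional ℂ E]
    (D : Set (ℂ × E)), Ov D → ∀
    (f : Fin N → ℂ → ℂ) (η : ℝ), 0 < η →
    (∀ i, DifferentiableOn ℂ (f i) {w : ℂ | -η < w.im}) →
    (∀ i, ∀ w : ℂ, 0 ≤ w.im → ‖f i w‖ ≤ 1) →
    (∀ i, ∃ c : ℂ, Tendsto (f i) (Bornology.cobounded ℂ ⊓ 𝓟 {w : ℂ | 0 ≤ w.im}) (𝓝 c)) →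
    ∀ G : Fin M → ℂ × E → ℂ, (∀ m, DifferentiableOn ℂ (G m) D) →
    (∀ m, ∀ p ∈ D, ‖G m p‖ ≤ 1) →
    ∀ O : Set ℂ, IsOpen O → (∀ w ∈ UH, (∀ i, ‖f i w‖ ≤ ε / 2) → w ∈ O) →
    ∀ k : Fin M → ℂ × E → ℂ, (∀ m, DifferentiableOn ℂ (k m) {p | p ∈ D ∧ p.1 ∈ O}) →
    (∀ m, ∀ p ∈ D, p.1 ∈ O → ‖k m p‖ ≤ K) → (∀ p ∈ D, p.1 ∈ O → ∑ m, G m p * k m p = 1) →
    ∀ e : Fin M → ℂ → ℂ × E → ℂ, (∀ m, Ext D (AA f (ε / 2)) (fun p => (k m p)⁻¹) Mx (e m)) →
    ∃ (g : Fin N → ℂ × E → ℂ) (g₀ : Fin M → ℂ × E → ℂ),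
      (∀ i, DifferentiableOn ℂ (g i) D) ∧
      (∀ m, DifferentiableOn ℂ (g₀ m) D) ∧
      (∀ i, ∀ p ∈ D, ‖g i p‖ ≤ C) ∧
      (∀ m, ∀ p ∈ D, ‖g₀ m p‖ ≤ C) ∧
      ∀ p ∈ D, ∑ i, f i p.1 * g i p + ∑ m, G m p * g₀ m p = 1

theorem siegelY (N M : ℕ) {ε K Mx : ℝ} (hε : 0 < ε) (hε1 : ε ≤ 1) (hK : 0 ≤ K) (hMx : 0 ≤ Mx) :
    ∃ C : ℝ, SiegelY N M ε K Mx C := by
  obtain ⟨ε', C, hε', hC, hcut⟩ := cutN N (ε := ε / 2) (by positivity) (by linarith)
  refine ⟨max (1 / ε' + M * (2160 * Real.exp C * (C / ε') * Mx) +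
        N * (2 * (2160 * Real.exp C * (2 * C / ε' ^ 2) * 1)))
        (K + N * (2160 * Real.exp C * (C / ε') * Mx)), ?_⟩
  intro E _ _ _ D hr f η hη hf hfb hlim G hG hGb O hO hOε k hk hkb hGk e he
  obtain ⟨S, a, R, χ, hP⟩ := hcut f η (fun i => ⟨hη, hf i, hfb i⟩) hlim
  have hfU : ∀ i, DifferentiableOn ℂ (f i) UH := fun i => (hf i).mono (fun w hw => by
      change -η < w.im
      have : (0 : ℝ) < w.im := hw
      linarith)
  choose V hV1 hV2 hV3 using fun (i : Fin N) (m : Fin M) =>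
    jones_opX hr hP.fam (he m) hMx (den1' hP hε' hC.le hfU i)
  obtain ⟨g, g0, h1, h2, h3, h4, h5⟩ := solveY (κ := Fin M) hr hP hε' hC.le hfU
    (fun i w hw => hfb i w (le_of_lt hw)) hG hGb hO hOε hk hK hkb hGk hV1
    (fun i m y => by
      have := hV2 i m y
      simp only [inv_inv] at this
      exact this) hV3
  rw [Fintype.card_fin] at h3
  exact ⟨g, g0, h1, h2, fun i p hp => (h3 i p hp).trans (le_max_left _ _),
    fun m p hp => (h4 m p hp).trans (le_max_right _ _), h5⟩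

variable {E : Type} [NormedAddCommGroup E] [NormedSpace ℂ E] [FiniteDimensional ℂ E]

/-- solutions on the part of the domain over a compact part of the base -/
theorem solve_rhoY {N M : ℕ} {ε K Mx C : ℝ} (hε : 0 < ε) (H : SiegelY N M ε K Mx C) {U : Set ℂ}
    (hU : IsOpen U) {D : Set (ℂ × E)} (hD : IsOpen D) (hs : ∀ p ∈ D, p.1 ∈ U)
    {h ψ : ℂ → ℂ} (hh : DifferentiableOn ℂ h (ball 0 1)) (hm : MapsTo h (ball 0 1) U)
    (hψ : DifferentiableOn ℂ ψ U) (hinv : ∀ z ∈ U, h (ψ z) = z)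
    (f : Fin N → ℂ → ℂ) (hf : ∀ i, DifferentiableOn ℂ (f i) U)
    (hfb : ∀ i, ∀ z ∈ U, ‖f i z‖ ≤ 1)
    (G : Fin M → ℂ × E → ℂ) (hG : ∀ m, DifferentiableOn ℂ (G m) D)
    (hGb : ∀ m, ∀ q ∈ D, ‖G m q‖ ≤ 1)
    (k : Fin M → ℂ × E → ℂ)
    (hk : ∀ m, DifferentiableOn ℂ (k m) {q | q ∈ D ∧ ∀ i, ‖f i q.1‖ < ε})
    (hkb : ∀ m, ∀ q ∈ D, (∀ i, ‖f i q.1‖ < ε) → ‖k m q‖ ≤ K)
    (hGk : ∀ q ∈ D, (∀ i, ‖f i q.1‖ < ε) → ∑ m, G m q * k m q = 1)
    {e : Fin M → ℂ → ℂ × E → ℂ} (he : ∀ m, Ext D (AU U f ε) (fun p => (k m p)⁻¹) Mx (e m))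
    {r : ℝ} (hr0 : 0 < r) (hr1 : r < 1) :
    ∃ (g : Fin N → ℂ × E → ℂ) (g₀ : Fin M → ℂ × E → ℂ),
      (∀ i, DifferentiableOn ℂ (g i) {q ∈ D | ‖ψ q.1‖ < r}) ∧
      (∀ m, DifferentiableOn ℂ (g₀ m) {q ∈ D | ‖ψ q.1‖ < r}) ∧
      (∀ i, ∀ q ∈ {q ∈ D | ‖ψ q.1‖ < r}, ‖g i q‖ ≤ C) ∧
      (∀ m, ∀ q ∈ {q ∈ D | ‖ψ q.1‖ < r}, ‖g₀ m q‖ ≤ C) ∧
      ∀ q ∈ {q ∈ D | ‖ψ q.1‖ < r}, ∑ i, f i q.1 * g i q + ∑ m, G m q * g₀ m q = 1 := by
  have hr2 : r ^ 2 < 1 := by nlinarith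
  have hfd : ∀ i, DifferentiableOn ℂ (fun w => f i (h (cy r w)))
      {w : ℂ | -((1 - r ^ 2) / 16) < w.im} := by
    intro i
    have h1 : MapsTo (cy r) {w : ℂ | -((1 - r ^ 2) / 16) < w.im} (ball 0 1) := fun w hw =>
      cy_mem hr0 hr1 hw
    exact (hf i).comp (hh.comp (cy_diff hr0 hr1) h1) (fun w hw => hm (h1 hw))
  have hfc : ∀ i, ContinuousOn (fun w => ‖f i (h (cy r w))‖) UH := by
    intro i w hw
    have h1 : DifferentiableAt ℂ (fun w => h (cy r w)) w := hcy_diffAt hh hr0 hr1 hw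
    have h2 : DifferentiableAt ℂ (f i) (h (cy r w)) :=
      (hf i).differentiableAt (hU.mem_nhds (hm (cy_mem' hr0 hr1 hw)))
    exact (ContinuousAt.comp (f := fun w => h (cy r w)) (g := f i) h2.continuousAt
      h1.continuousAt).norm.continuousWithinAt
  set O : Set ℂ := {w | w ∈ UH ∧ ∀ i, ‖f i (h (cy r w))‖ < ε} with hOdef
  have hOo : IsOpen O := open_all isOpen_UH hfc ε
  have hDf : IsOpen {q : ℂ × E | q ∈ D ∧ ∀ i, ‖f i q.1‖ < ε} :=
    open_all hD (fun i =>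
      ((hf i).continuousOn.comp continuousOn_fst (fun q hq => hs _ hq)).norm) ε
  have hkd : ∀ m, DifferentiableOn ℂ (fun p : ℂ × E => k m (h (cy r p.1), p.2))
      {p | p ∈ Dr D h r ∧ p.1 ∈ O} := by
    intro m p hp
    have h1 : DifferentiableAt ℂ (fun w => h (cy r w)) p.1 := hcy_diffAt hh hr0 hr1 hp.1.1
    have h2 : DifferentiableAt ℂ (fun p : ℂ × E => h (cy r p.1)) p :=
      DifferentiableAt.comp (g := fun w => h (cy r w)) (f := fun p : ℂ × E => p.1) p h1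
        differentiableAt_fst
    have h3 : DifferentiableAt ℂ (fun p : ℂ × E => (h (cy r p.1), p.2)) p :=
      h2.prodMk differentiableAt_snd
    have h4 : DifferentiableAt ℂ (k m) (h (cy r p.1), p.2) :=
      (hk m _ ⟨hp.1.2, hp.2.2⟩).differentiableAt (hDf.mem_nhds ⟨hp.1.2, hp.2.2⟩)
    exact (DifferentiableAt.comp (g := k m) p h4 h3).differentiableWithinAt
  obtain ⟨g, g₀, hg, hg0, hgb, hg0b, hid⟩ := H E (Dr D h r) (ov_r hD hs hh hr0 hr1)
    (fun i w => f i (h (cy r w))) ((1 - r ^ 2) / 16) (by linarith) hfd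
    (by
      intro i w hw
      apply hfb
      apply hm
      exact cy_mem hr0 hr1 (by linarith))
    (by
      intro i
      refine ⟨f i (h ((r : ℂ) * 1)), ?_⟩
      refine Tendsto.mono_left ?_ inf_le_left
      have hmem : (r : ℂ) * 1 ∈ ball (0 : ℂ) 1 := by
        rw [mem_ball_zero_iff, mul_one, Complex.norm_real, Real.norm_of_nonneg hr0.le]
        exact hr1
      have hc0 : ContinuousAt h ((r : ℂ) * 1) :=
        (hh.differentiableAt (isOpen_ball.mem_nhds hmem)).continuousAt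
      have hc : ContinuousAt (f i) (h ((r : ℂ) * 1)) :=
        ((hf i).differentiableAt (hU.mem_nhds (hm hmem))).continuousAt
      exact hc.tendsto.comp (hc0.tendsto.comp (TB.cay_tendsto.const_mul (r : ℂ))))
    (fun m p => G m (h (cy r p.1), p.2)) (fun m => pull_diff hD hh hr0 hr1 (hG m))
    (fun m p hp => hGb m _ hp.2)
    O hOo
    (by
      intro w hw hi
      refine ⟨hw, fun i => ?_⟩
      have := hi i
      linarith)
    (fun m p => k m (h (cy r p.1), p.2))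
    hkd
    (fun m p hp hpO => hkb m _ hp.2 hpO.2)
    (fun p hp hpO => hGk _ hp.2 hpO.2)
    (fun m => fun ζ p => e m (Hm h r ζ) (Hm h r p.1, p.2))
    (fun m => ext_r hε hD hh hm hr0 hr1 f (he m))
  set T : ℂ × E → ℂ × E := fun q => (yc r (ψ q.1), q.2) with hT
  have hTm : MapsTo T {q ∈ D | ‖ψ q.1‖ < r} (Dr D h r) := by
    rintro q ⟨hq, hq2⟩
    refine ⟨yc_im hr0 hq2, ?_⟩
    change (h (cy r (yc r (ψ q.1))), q.2) ∈ D
    rw [cy_yc hr0 hq2, hinv _ (hs _ hq)]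
    exact hq
  have hTd : DifferentiableOn ℂ T {q ∈ D | ‖ψ q.1‖ < r} := by
    rintro q ⟨hq, hq2⟩
    have h1 : DifferentiableAt ℂ ψ q.1 := (hψ _ (hs _ hq)).differentiableAt (hU.mem_nhds (hs _ hq))
    have h2 : DifferentiableAt ℂ (fun z => yc r (ψ z)) q.1 :=
      DifferentiableAt.comp q.1 (yc_diff hr0 hq2) h1
    have h3 : DifferentiableAt ℂ (fun q : ℂ × E => yc r (ψ q.1)) q :=
      DifferentiableAt.comp (g := fun z => yc r (ψ z)) (f := fun p : ℂ × E => p.1) q h2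
        differentiableAt_fst
    exact (h3.prodMk differentiableAt_snd).differentiableWithinAt
  refine ⟨fun i q => g i (T q), fun m q => g₀ m (T q), fun i => (hg i).comp hTd hTm,
    fun m => (hg0 m).comp hTd hTm, fun i q hq => hgb i _ (hTm hq),
    fun m q hq => hg0b m _ (hTm hq), fun q hq => ?_⟩
  have h2 := hid _ (hTm hq)
  have h3 : h (cy r (T q).1) = q.1 := by
    change h (cy r (yc r (ψ q.1))) = q.1
    rw [cy_yc hr0 hq.2, hinv _ (hs _ hq.1)]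
  simp only [h3] at h2
  exact h2

/-- **Localisation theorem**: domains with bounded extensions from the slices. -/
theorem base_thmY {N M : ℕ} {ε K Mx C : ℝ} (hε : 0 < ε) (H : SiegelY N M ε K Mx C) {U : Set ℂ}
    (hU : IsOpen U)
    (hUc : IsSimplyConnected U) (hne : U ≠ univ) (hne' : U.Nonempty)
    {D : Set (ℂ × E)} (hD : IsOpen D) (hs : ∀ p ∈ D, p.1 ∈ U)
    (f : Fin N → ℂ → ℂ) (hf : ∀ i, DifferentiableOn ℂ (f i) U)
    (hfb : ∀ i, ∀ z ∈ U, ‖f i z‖ ≤ 1)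
    (G : Fin M → ℂ × E → ℂ) (hG : ∀ m, DifferentiableOn ℂ (G m) D)
    (hGb : ∀ m, ∀ q ∈ D, ‖G m q‖ ≤ 1)
    (k : Fin M → ℂ × E → ℂ)
    (hk : ∀ m, DifferentiableOn ℂ (k m) {q | q ∈ D ∧ ∀ i, ‖f i q.1‖ < ε})
    (hkb : ∀ m, ∀ q ∈ D, (∀ i, ‖f i q.1‖ < ε) → ‖k m q‖ ≤ K)
    (hGk : ∀ q ∈ D, (∀ i, ‖f i q.1‖ < ε) → ∑ m, G m q * k m q = 1)
    {e : Fin M → ℂ → ℂ × E → ℂ} (he : ∀ m, Ext D (AU U f ε) (fun p => (k m p)⁻¹) Mx (e m)) :
    ∃ (g : Fin N → ℂ × E → ℂ) (g₀ : Fin M → ℂ × E → ℂ),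
      (∀ i, DifferentiableOn ℂ (g i) D) ∧ (∀ m, DifferentiableOn ℂ (g₀ m) D) ∧
      (∀ i, ∀ q ∈ D, ‖g i q‖ ≤ C) ∧ (∀ m, ∀ q ∈ D, ‖g₀ m q‖ ≤ C) ∧
      ∀ q ∈ D, ∑ i, f i q.1 * g i q + ∑ m, G m q * g₀ m q = 1 := by
  obtain ⟨a, ha⟩ := hne'
  obtain ⟨h, ψ, hh, hbij, -, -, hψ, hψm, hinv, -⟩ :=
    Pool.Agent.Helper202.Riemann.riemann_inv hU hUc hne ha
  set r : ℕ → ℝ := fun m => 1 - 1 / ((m : ℝ) + 2) with hr
  have hr0 : ∀ m, 0 < r m := by
    intro m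
    have : (0 : ℝ) ≤ m := Nat.cast_nonneg m
    rw [hr]
    beta_reduce
    rw [sub_pos, div_lt_one (by linarith)]
    linarith
  have hr1 : ∀ m, r m < 1 := by
    intro m
    have : (0 : ℝ) ≤ m := Nat.cast_nonneg m
    rw [hr]
    beta_reduce
    have : 0 < 1 / ((m : ℝ) + 2) := by positivity
    linarith
  have hrt : Tendsto r atTop (𝓝 1) := by
    have h1 : Tendsto r atTop (𝓝 (1 - 0)) := by
      refine tendsto_const_nhds.sub ?_
      have h2 := (tendsto_one_div_add_atTop_nhds_zero_nat (𝕜 := ℝ))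
      have h3 := h2.comp (tendsto_add_atTop_nat 1)
      refine h3.congr (fun m => ?_)
      simp only [Function.comp_apply]
      push_cast
      ring
    rwa [sub_zero] at h1
  have hrm : Monotone r := by
    intro m n hmn
    have : (0 : ℝ) ≤ m := Nat.cast_nonneg m
    have h2 : (m : ℝ) ≤ n := by exact_mod_cast hmn
    simp only [hr]
    gcongr
  set B : ℕ → Set (ℂ × E) := fun m => {q ∈ D | ‖ψ q.1‖ < r m} with hB
  have hBo : ∀ m, IsOpen (B m) := by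
    intro m
    have hc : ContinuousOn (fun q : ℂ × E => ‖ψ q.1‖) D := by
      refine ContinuousOn.norm ?_
      refine hψ.continuousOn.comp continuousOn_fst ?_
      intro q hq
      exact hs _ hq
    exact hc.isOpen_inter_preimage hD (isOpen_Iio (a := r m))
  have hBm : Monotone B := fun m n hmn q hq => ⟨hq.1, lt_of_lt_of_le hq.2 (hrm hmn)⟩
  have hBU : (⋃ m, B m) = D := by
    ext q
    rw [mem_iUnion]
    constructor
    · rintro ⟨m, hm⟩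
      exact hm.1
    · intro hq
      have h1 : ‖ψ q.1‖ < 1 := by
        have := hψm (hs _ hq)
        rwa [mem_ball_zero_iff] at this
      obtain ⟨m, hm⟩ := (hrt.eventually (lt_mem_nhds h1)).exists
      exact ⟨m, hq, hm⟩
  obtain ⟨v, hv1, hv2, hv3⟩ := exhaust3 (C := C) (κ := Fin N ⊕ Fin M) B hBo hBm
    (Sum.elim (fun i q => f i q.1) G) (fun m => by
      obtain ⟨g, g₀, a1, a2, a3, a4, a5⟩ :=
        solve_rhoY hε H hU hD hs hh hbij.mapsTo hψ hinv f hf hfb G hG hGb k hk hkb hGk he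
          (hr0 m) (hr1 m)
      refine ⟨Sum.elim g g₀, ?_, ?_, ?_⟩
      · rintro (i | i)
        · exact a1 i
        · exact a2 i
      · rintro (i | i)
        · exact a3 i
        · exact a4 i
      · intro q hq
        rw [Fintype.sum_sum_type]
        exact a5 q hq)
  rw [hBU] at hv1 hv2 hv3
  refine ⟨fun i => v (Sum.inl i), fun m => v (Sum.inr m), fun i => hv1 _, fun m => hv1 _,
    fun i => hv2 _, fun m => hv2 _, fun q hq => ?_⟩
  have h1 := hv3 q hq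
  rw [Fintype.sum_sum_type] at h1
  exact h1

end Pool.Agent.Helper85K9.SC
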