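import Mathlib
import Pool.Agent.Y263.SC.Fin
import Pool.Agent.Helper85K9.SC.ExtY

/-!
Localisation theorem on bounded strictly convex domains of `ℂ²` for bounded holomorphic functions of
one linear functional and an arbitrary tuple.
-/

set_option autoImplicit false
set_option linter.unusedSectionVars false

open MeasureTheory Set Filter Topology Complex Metric

namespace Pool.Agent.Helper85K9.SC

open Pool.Agent.Y263.SC

variable {D O : Set (ℂ × ℂ)} {ρ : ℂ × ℂ → ℝ}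

theorem one_dirY (h : StrC D O ρ) (N M : ℕ) {ε K : ℝ} (hε : 0 < ε) (hK : 0 ≤ K) :
    ∃ C : ℝ, 0 ≤ C ∧
    ∀ f : Fin N → ℂ → ℂ, (∀ i, DifferentiableOn ℂ (f i) (Prod.fst '' D)) →
      (∀ i, ∀ z ∈ Prod.fst '' D, ‖f i z‖ ≤ 1) →
      ∀ G : Fin M → ℂ × ℂ → ℂ, (∀ m, DifferentiableOn ℂ (G m) D) → (∀ m, ∀ p ∈ D, ‖G m p‖ ≤ 1) →
      ∀ k : Fin M → ℂ × ℂ → ℂ,
      (∀ m, DifferentiableOn ℂ (k m) {p | p ∈ D ∧ ∀ i, ‖f i p.1‖ < ε}) →
      (∀ m, ∀ p ∈ D, (∀ i, ‖f i p.1‖ < ε) → ‖k m p‖ ≤ K) →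
      (∀ p ∈ D, (∀ i, ‖f i p.1‖ < ε) → ∑ m, G m p * k m p = 1) →
      ∃ (g : Fin N → ℂ × ℂ → ℂ) (g₀ : Fin M → ℂ × ℂ → ℂ),
        (∀ i, DifferentiableOn ℂ (g i) D) ∧ (∀ m, DifferentiableOn ℂ (g₀ m) D) ∧
        (∀ i, ∀ q ∈ D, ‖g i q‖ ≤ C) ∧ (∀ m, ∀ q ∈ D, ‖g₀ m q‖ ≤ C) ∧
        ∀ q ∈ D, ∑ i, f i q.1 * g i q + ∑ m, G m q * g₀ m q = 1 := by
  rcases D.eq_empty_or_nonempty with he | hne
  · refine ⟨0, le_rfl, fun f _ _ G _ _ k _ _ _ => ⟨fun _ _ => 0, fun _ _ => 0, ?_⟩⟩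
    rw [he]
    simp
  set ε' := min ε 1 with hε'
  have hε0 : 0 < ε' := lt_min hε one_pos
  obtain ⟨l, L, d, B, CW, hdom⟩ := h.dom2 hne
  obtain ⟨Cx, hCx, hext⟩ := extY hdom hne
  obtain ⟨C, hC⟩ := siegelY N M hε0 (min_le_right _ _) hK (mul_nonneg hCx hK)
  refine ⟨max C 0, le_max_right _ _, ?_⟩
  intro f hf hfb G hG hGb k hk hkb hGk
  have hDo := h.op
  have hUo : IsOpen (Prod.fst '' D : Set ℂ) := isOpenMap_fst _ hDo
  have hUc : Convex ℝ (Prod.fst '' D : Set ℂ) := by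
    have := h.cvx.linear_image (LinearMap.fst ℝ ℂ ℂ)
    exact this
  have hUne : (Prod.fst '' D : Set ℂ).Nonempty := hne.image _
  have hUb : Bornology.IsBounded (Prod.fst '' D : Set ℂ) := by
    have h1 : IsCompact (closure D) := h.bdd.isCompact_closure
    exact ((h1.image continuous_fst).isBounded).subset (image_mono subset_closure)
  have hUu : (Prod.fst '' D : Set ℂ) ≠ univ := by
    intro h1
    rw [h1] at hUb
    exact NormedSpace.unbounded_univ ℝ ℂ hUb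
  have hs : ∀ p ∈ D, p.1 ∈ (Prod.fst '' D : Set ℂ) := fun p hp => mem_image_of_mem _ hp
  have hsub : ∀ p : ℂ × ℂ, (∀ i, ‖f i p.1‖ < ε') → ∀ i, ‖f i p.1‖ < ε := fun p hi i =>
    lt_of_lt_of_le (hi i) (min_le_left _ _)
  have hAo : IsOpen (AU (Prod.fst '' D) f ε') :=
    Pool.Agent.H788R3.Cor3.open_all hUo (fun i => (hf i).continuousOn.norm) ε'
  have he : ∀ m, Ext D (AU (Prod.fst '' D) f ε') (fun p => (k m p)⁻¹) (Cx * K) _ := fun m =>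
    hext (AU (Prod.fst '' D) f ε') (AU (Prod.fst '' D) f ε') (k m) K hAo subset_rfl
      ((hk m).mono (fun p hp => ⟨hp.1, hsub p hp.2.2⟩))
      (fun p hp hpA => hkb m p hp (hsub p hpA.2)) (by
        rintro ζ ⟨⟨p, hp, rfl⟩, -⟩
        exact ⟨p.2, hp⟩)
  obtain ⟨g, g₀, h1, h2, h3, h4, h5⟩ := base_thmY hε0 hC hUo
    (Pool.Agent.H788R3.Cor2.conv_sc hUc hUne) hUu hUne hDo hs f hf hfb G hG hGb k
    (fun m => (hk m).mono (fun p hp => ⟨hp.1, hsub p hp.2⟩))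
    (fun m p hp hi => hkb m p hp (hsub p hi)) (fun p hp hi => hGk p hp (hsub p hi)) he
  exact ⟨g, g₀, h1, h2, fun i p hp => (h3 i p hp).trans (le_max_left _ _),
    fun m p hp => (h4 m p hp).trans (le_max_left _ _), h5⟩

/-- **Localisation theorem** for one linear functional. -/
theorem one_linY (h : StrC D O ρ) (N M : ℕ) (α : ℂ × ℂ →L[ℂ] ℂ) (hα : α ≠ 0) {ε K : ℝ}
    (hε : 0 < ε) (hK : 0 ≤ K) :
    ∃ C : ℝ, 0 ≤ C ∧
    ∀ f : Fin N → ℂ → ℂ, (∀ i, DifferentiableOn ℂ (f i) (α '' D)) →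
      (∀ i, ∀ z ∈ α '' D, ‖f i z‖ ≤ 1) →
      ∀ G : Fin M → ℂ × ℂ → ℂ, (∀ m, DifferentiableOn ℂ (G m) D) → (∀ m, ∀ p ∈ D, ‖G m p‖ ≤ 1) →
      ∀ k : Fin M → ℂ × ℂ → ℂ,
      (∀ m, DifferentiableOn ℂ (k m) {p | p ∈ D ∧ ∀ i, ‖f i (α p)‖ < ε}) →
      (∀ m, ∀ p ∈ D, (∀ i, ‖f i (α p)‖ < ε) → ‖k m p‖ ≤ K) →
      (∀ p ∈ D, (∀ i, ‖f i (α p)‖ < ε) → ∑ m, G m p * k m p = 1) →
      ∃ (g : Fin N → ℂ × ℂ → ℂ) (g₀ : Fin M → ℂ × ℂ → ℂ),
        (∀ i, DifferentiableOn ℂ (g i) D) ∧ (∀ m, DifferentiableOn ℂ (g₀ m) D) ∧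
        (∀ i, ∀ q ∈ D, ‖g i q‖ ≤ C) ∧ (∀ m, ∀ q ∈ D, ‖g₀ m q‖ ≤ C) ∧
        ∀ q ∈ D, ∑ i, f i (α q) * g i q + ∑ m, G m q * g₀ m q = 1 := by
  obtain ⟨T, hT⟩ := exists_iso α hα
  obtain ⟨C, hC0, hC⟩ := one_dirY (h.image T) N M hε hK
  refine ⟨C, hC0, ?_⟩
  intro f hf hfb G hG hGb k hk hkb hGk
  have himg : (Prod.fst '' (T '' D) : Set ℂ) = α '' D := by
    rw [image_image]
    exact image_congr (fun z _ => hT z)
  have hmaps : MapsTo (fun p => T.symm p) (T '' D) D := by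
    rintro _ ⟨x, hx, rfl⟩
    simpa using hx
  have hαT : ∀ p, α (T.symm p) = p.1 := by
    intro p
    rw [← hT (T.symm p)]
    simp
  obtain ⟨g, g₀, h1, h2, h3, h4, h5⟩ := hC f (by rwa [himg]) (by rwa [himg])
    (fun m p => G m (T.symm p))
    (fun m => (hG m).comp T.symm.differentiable.differentiableOn hmaps)
    (fun m p hp => hGb m _ (hmaps hp))
    (fun m p => k m (T.symm p))
    (fun m => (hk m).comp T.symm.differentiable.differentiableOn (fun p hp =>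
      ⟨hmaps hp.1, fun i => by
        have := hp.2 i
        rwa [← hαT p] at this⟩))
    (fun m p hp hi => hkb m _ (hmaps hp) (fun i => by
        have := hi i
        rwa [← hαT p] at this))
    (fun p hp hi => hGk _ (hmaps hp) (fun i => by
        have := hi i
        rwa [← hαT p] at this))
  have hmaps2 : MapsTo (fun p => T p) D (T '' D) := fun p hp => mem_image_of_mem _ hp
  refine ⟨fun i p => g i (T p), fun m p => g₀ m (T p),
    fun i => (h1 i).comp T.differentiable.differentiableOn hmaps2,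
    fun m => (h2 m).comp T.differentiable.differentiableOn hmaps2, fun i p hp => h3 i _ (hmaps2 hp),
    fun m p hp => h4 m _ (hmaps2 hp), fun p hp => ?_⟩
  have h6 := h5 _ (hmaps2 hp)
  simp only [ContinuousLinearEquiv.symm_apply_apply, hT] at h6
  exact h6

end Pool.Agent.Helper85K9.SC
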