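import Mathlib
import Pool.Agent.H720R2.Cor.Lim
import Pool.Agent.Y263.LF.Loc

/-!
The Banach algebra of bounded families of holomorphic functions on an open set, and its characters.
-/

set_option autoImplicit false

open Metric Set Filter Topology WeakDual

namespace Pool.Agent.Helper85K9.SC

open Pool.Agent.Y263.LF (Bez Bez.mono)

/-- holomorphic and bounded by `1` -/
def UB {X : Type} [NormedAddCommGroup X] [NormedSpace ℂ X] (D : Set X) (f : X → ℂ) : Prop :=
  DifferentiableOn ℂ f D ∧ ∀ z ∈ D, ‖f z‖ ≤ 1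

/-- copies of the points of `D`, with the discrete topology -/
structure Pf (I : Type) {X : Type} (D : Set X) : Type where
  /-- the index -/
  ix : I
  /-- the point -/
  pt : D

instance {I X : Type} (D : Set X) : TopologicalSpace (Pf I D) := ⊥
instance {I X : Type} (D : Set X) : DiscreteTopology (Pf I D) := ⟨rfl⟩

variable {X : Type} [NormedAddCommGroup X] [NormedSpace ℂ X]

/-- the algebra of bounded families of holomorphic functions on `D` -/
noncomputable def HF (I : Type) (D : Set X) : Subalgebra ℂ (BoundedContinuousFunction (Pf I D) ℂ) where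
  carrier := {F | ∀ k, ∃ f : X → ℂ, DifferentiableOn ℂ f D ∧
    ∀ z : D, F (⟨k, z⟩ : Pf I D) = f z}
  mul_mem' := by
    rintro F G hF hG k
    obtain ⟨f, hf, hF⟩ := hF k
    obtain ⟨g, hg, hG⟩ := hG k
    refine ⟨fun z => f z * g z, hf.mul hg, fun z => ?_⟩
    rw [BoundedContinuousFunction.mul_apply, hF, hG]
  add_mem' := by
    rintro F G hF hG k
    obtain ⟨f, hf, hF⟩ := hF k
    obtain ⟨g, hg, hG⟩ := hG k
    refine ⟨fun z => f z + g z, hf.add hg, fun z => ?_⟩
    rw [BoundedContinuousFunction.add_apply, hF, hG]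
  algebraMap_mem' := by
    intro c k
    exact ⟨fun _ => c, differentiableOn_const _, fun z => rfl⟩

/-- `D` is open, and bounded sequences of holomorphic functions have holomorphic limits -/
structure OD (X : Type) [NormedAddCommGroup X] [NormedSpace ℂ X] [FiniteDimensional ℂ X] where
  /-- the set -/
  D : Set X
  /-- it is open -/
  op : IsOpen D

variable [FiniteDimensional ℂ X] {I : Type} {D : OD X}

theorem isClosed_HF : IsClosed ((HF I D.D : Subalgebra ℂ (BoundedContinuousFunction (Pf I D.D) ℂ)) :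
    Set (BoundedContinuousFunction (Pf I D.D) ℂ)) := by
  apply IsSeqClosed.isClosed
  intro F G hF hG i
  choose f hf hFf using fun k => hF k i
  have hbd : ∃ C : ℝ, ∀ k, ‖F k‖ ≤ C := by
    obtain ⟨C, hC⟩ := hG.norm.bddAbove_range
    exact ⟨C, fun k => hC ⟨k, rfl⟩⟩
  obtain ⟨C, hC⟩ := hbd
  obtain ⟨g, hg, -, hlim⟩ := Pool.Agent.H720R2.Cor.ultra_lim D.op (C := C)
    (Ultrafilter.of (atTop : Filter ℕ)) f hf (fun k z hz => by
      have := (F k).norm_coe_le_norm (⟨i, ⟨z, hz⟩⟩ : Pf I D.D)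
      rw [hFf] at this
      exact this.trans (hC k))
  refine ⟨g, hg, fun z => ?_⟩
  have h1 : Tendsto (fun k => f k z) atTop (𝓝 (G (⟨i, z⟩ : Pf I D.D))) := by
    have h2 := ((BoundedContinuousFunction.tendsto_iff_tendstoUniformly.1 hG).tendsto_at
      (⟨i, z⟩ : Pf I D.D))
    refine h2.congr (fun k => ?_)
    exact hFf k z
  exact tendsto_nhds_unique (h1.mono_left (Ultrafilter.of_le _)) (hlim z z.2)

noncomputable instance : NormedCommRing (HF I D.D) := inferInstance
noncomputable instance : NormedAlgebra ℂ (HF I D.D) := inferInstance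
instance : CompleteSpace (HF I D.D) := isClosed_HF.completeSpace_coe

/-- elements of `HF` -/
noncomputable def mkF {f : I → X → ℂ} (hf : ∀ k, DifferentiableOn ℂ (f k) D.D)
    {C : ℝ} (hC : ∀ k, ∀ z ∈ D.D, ‖f k z‖ ≤ C) : HF I D.D :=
  ⟨BoundedContinuousFunction.ofNormedAddCommGroup (fun x : Pf I D.D => f x.1 x.2)
    continuous_of_discreteTopology C (fun x => hC x.1 x.2 x.2.2), fun k => ⟨f k, hf k, fun z => rfl⟩⟩

theorem extF {F G : HF I D.D} (h : ∀ k z, F.1 (⟨k, z⟩ : Pf I D.D) = G.1 ⟨k, z⟩) : F = G := by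
  apply Subtype.ext
  ext x
  exact h x.1 x.2

theorem sumF {ι : Type*} (s : Finset ι) (F : ι → HF I D.D) (x : Pf I D.D) :
    (∑ i ∈ s, F i).1 x = ∑ i ∈ s, (F i).1 x := by
  classical
  induction s using Finset.induction_on with
  | empty => rfl
  | insert i s hi ih =>
    rw [Finset.sum_insert hi, Finset.sum_insert hi, ← ih]
    rfl

theorem normF {F : HF I D.D} {C : ℝ} (hC : 0 ≤ C) (h : ∀ x, ‖F.1 x‖ ≤ C) : ‖F‖ ≤ C :=
  (BoundedContinuousFunction.norm_le hC).2 h

theorem le_normF (F : HF I D.D) (x : Pf I D.D) : ‖F.1 x‖ ≤ ‖F‖ := F.1.norm_coe_le_norm x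

theorem char_leF (χ : characterSpace ℂ (HF I D.D)) (F : HF I D.D) : ‖χ F‖ ≤ ‖F‖ := by
  have h := AlgHom.apply_mem_spectrum χ F
  have h2 := spectrum.norm_le_norm_mul_of_mem h
  have h3 : ‖(1 : HF I D.D)‖ ≤ 1 := normF zero_le_one (fun z => by
    change ‖(1 : ℂ)‖ ≤ 1
    simp)
  calc ‖χ F‖ ≤ ‖F‖ * ‖(1 : HF I D.D)‖ := h2
    _ ≤ ‖F‖ * 1 := by gcongr
    _ = ‖F‖ := mul_one _

/-- constants -/
noncomputable def CF (I : Type) (D : OD X) (c : ℂ) : HF I D.D := algebraMap ℂ (HF I D.D) c

theorem char_CF (χ : characterSpace ℂ (HF I D.D)) (c : ℂ) : χ (CF I D c) = c := by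
  unfold CF
  exact AlgHomClass.commutes χ c

/-- a family of functions as an element of the algebra -/
noncomputable def EF {f : I → X → ℂ} (hf : ∀ i, UB D.D (f i)) : HF I D.D :=
  mkF (f := f) (fun i => (hf i).1) (C := 1) (fun i => (hf i).2)

theorem char_EF_le (χ : characterSpace ℂ (HF I D.D)) {f : I → X → ℂ} (hf : ∀ i, UB D.D (f i)) :
    ‖χ (EF hf)‖ ≤ 1 :=
  (char_leF χ _).trans (normF zero_le_one fun x => (hf x.1).2 x.2 x.2.2)

theorem zeroF {ι : Type} [Fintype ι] {F : I → ι → X → ℂ} (hF : ∀ i j, UB D.D (F i j))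
    (h : ¬ ∃ C : ℝ, ∀ i, Bez D.D (F i) C) :
    ∃ χ : characterSpace ℂ (HF I D.D), ∀ j, χ (EF (f := fun i => F i j) (fun i => hF i j)) = 0 := by
  by_cases hI : Ideal.span (Set.range fun j => EF (f := fun i => F i j) (fun i => hF i j)) = ⊤
  · exfalso
    apply h
    have h1 : (1 : HF I D.D) ∈
        Ideal.span (Set.range fun j => EF (f := fun i => F i j) (fun i => hF i j)) := by
      rw [hI]; trivial
    obtain ⟨c, hc⟩ := Ideal.mem_span_range_iff_exists_fun.1 h1
    choose g hg hgc using fun j => (c j).2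
    refine ⟨∑ j, ‖c j‖, fun i => ⟨fun j => g j i, fun j => hg j i, fun j z hz => ?_,
      fun z hz => ?_⟩⟩
    · have h2 := hgc j i ⟨z, hz⟩
      have h3 := le_normF (c j) (⟨i, ⟨z, hz⟩⟩ : Pf I D.D)
      rw [h2] at h3
      exact h3.trans (Finset.single_le_sum (f := fun j => ‖c j‖) (fun j _ => norm_nonneg _)
        (Finset.mem_univ j))
    · have h2 : (∑ j, c j * EF (f := fun i => F i j) (fun i => hF i j) : HF I D.D).1
          (⟨i, ⟨z, hz⟩⟩ : Pf I D.D) = 1 := by
        rw [hc]; rfl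
      rw [sumF] at h2
      rw [← h2]
      refine Finset.sum_congr rfl fun j _ => ?_
      change F i j z * g j i z = (c j).1 (⟨i, ⟨z, hz⟩⟩ : Pf I D.D) * F i j z
      rw [hgc j i, mul_comm]
  · obtain ⟨M, hM, hIM⟩ := (Ideal.span (Set.range fun j =>
      EF (f := fun i => F i j) (fun i => hF i j))).exists_le_maximal hI
    exact ⟨M.toCharacterSpace, fun j =>
      M.toCharacterSpace_apply_eq_zero_of_mem (hIM (Ideal.subset_span ⟨j, rfl⟩))⟩

theorem nosolvF {ι : Type} [Fintype ι] {F : I → ι → X → ℂ} (hF : ∀ i j, UB D.D (F i j))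
    (χ : characterSpace ℂ (HF I D.D)) (h0 : ∀ j, χ (EF (f := fun i => F i j) (fun i => hF i j)) = 0) :
    ¬ ∃ C : ℝ, ∀ i, Bez D.D (F i) C := by
  classical
  rintro ⟨C, hC⟩
  choose g hg hgb hid using hC
  have h1 : (1 : HF I D.D) = ∑ j, EF (f := fun i => F i j) (fun i => hF i j) *
      mkF (f := fun i => g i j) (fun i => hg i j) (fun i => hgb i j) := by
    apply extF
    intro i z
    rw [sumF]
    exact (hid i z z.2).symm
  have h2 := congrArg χ h1
  rw [map_one, map_sum] at h2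
  have h3 : ∀ j, χ (EF (f := fun i => F i j) (fun i => hF i j) *
      mkF (f := fun i => g i j) (fun i => hg i j) (fun i => hgb i j)) = 0 := by
    intro j
    rw [map_mul, h0 j, zero_mul]
  rw [Finset.sum_congr rfl (fun j _ => h3 j), Finset.sum_const_zero] at h2
  exact one_ne_zero h2

/-- affine changes of the elements -/
theorem char_aff (χ : characterSpace ℂ (HF I D.D)) {f g : I → X → ℂ} (hf : ∀ i, UB D.D (f i))
    (hg : ∀ i, UB D.D (g i)) (a b : ℂ) (h : ∀ i, ∀ z ∈ D.D, g i z = a * f i z + b) :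
    χ (EF hg) = a * χ (EF hf) + b := by
  have h1 : EF hg = (CF I D a * EF hf + CF I D b : HF I D.D) := by
    apply extF
    intro i z
    exact h i z z.2
  rw [h1, map_add, map_mul, char_CF, char_CF]

end Pool.Agent.Helper85K9.SC
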