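import Mathlib
import Pool.Agent.Helper85K9.SC.Fam

/-!
The point of the closure of a bounded convex domain below a character.
-/

set_option autoImplicit false

open Metric Set Filter Topology WeakDual

namespace Pool.Agent.Helper85K9.SC

open Pool.Agent.Y263.LF (Bez Bez.mono)

variable {I : Type} {D : OD (ℂ × ℂ)}

/-- linear functions -/
noncomputable def LF (I : Type) {D : OD (ℂ × ℂ)} {R : ℝ} (hR : ∀ z ∈ D.D, ‖z‖ ≤ R)
    (β : ℂ × ℂ →L[ℂ] ℂ) : HF I D.D :=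
  mkF (f := fun _ z => β z) (fun _ => β.differentiable.differentiableOn) (C := ‖β‖ * R)
    (fun _ z hz => (β.le_opNorm z).trans (by gcongr; exact hR z hz))

theorem LF_add {R : ℝ} (hR : ∀ z ∈ D.D, ‖z‖ ≤ R) (a b : ℂ) (β γ : ℂ × ℂ →L[ℂ] ℂ) :
    LF I hR (a • β + b • γ) = CF I D a * LF I hR β + CF I D b * LF I hR γ := by
  apply extF
  intro i z
  rfl

theorem pt_ex (hc : Convex ℝ D.D) {R : ℝ} (hR : ∀ z ∈ D.D, ‖z‖ ≤ R)
    (χ : characterSpace ℂ (HF I D.D)) :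
    ∃ p ∈ closure D.D, ∀ β : ℂ × ℂ →L[ℂ] ℂ, χ (LF I hR β) = β p := by
  obtain ⟨p, hp⟩ : ∃ p : ℂ × ℂ, p = (χ (LF I hR (ContinuousLinearMap.fst ℂ ℂ ℂ)),
    χ (LF I hR (ContinuousLinearMap.snd ℂ ℂ ℂ))) := ⟨_, rfl⟩
  have hβ : ∀ β : ℂ × ℂ →L[ℂ] ℂ, χ (LF I hR β) = β p := by
    intro β
    have h1 : β = β (1, 0) • ContinuousLinearMap.fst ℂ ℂ ℂ + β (0, 1) •
        ContinuousLinearMap.snd ℂ ℂ ℂ := by
      ext <;> simp
    have h2 : β p = β (1, 0) * p.1 + β (0, 1) * p.2 := by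
      conv_lhs => rw [h1]
      simp
    rw [h2]
    conv_lhs => rw [h1]
    rw [LF_add, map_add, map_mul, map_mul, char_CF, char_CF, hp]
  refine ⟨p, ?_, hβ⟩
  by_contra hno
  obtain ⟨β, u, h1, h2⟩ := RCLike.geometric_hahn_banach_closed_point (𝕜 := ℂ) hc.closure
    isClosed_closure hno
  have h3 : ∀ z ∈ D.D, (β p).re - u ≤ ‖β z - β p‖ := by
    intro z hz
    have h4 := h1 z (subset_closure hz)
    have h5 : -(β z - β p).re ≤ ‖β z - β p‖ := by
      have := Complex.abs_re_le_norm (β z - β p)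
      exact (neg_le_abs _).trans this
    rw [Complex.sub_re] at h5
    have h6 : (β z).re < u := h4
    linarith
  have h2' : u < (β p).re := h2
  have h0 : ∀ z ∈ D.D, β z - β p ≠ 0 := by
    intro z hz h
    have := h3 z hz
    rw [h, norm_zero] at this
    linarith
  have e1 : (LF I hR β - CF I D (β p)) * mkF (I := I) (D := D) (f := fun _ z => (β z - β p)⁻¹)
      (fun _ => (β.differentiable.differentiableOn.sub_const _).fun_inv h0)
      (C := ((β p).re - u)⁻¹) (fun _ z hz => by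
        rw [norm_inv]
        exact inv_anti₀ (by linarith) (h3 z hz)) = 1 := by
    apply extF
    intro i z
    exact mul_inv_cancel₀ (h0 z z.2)
  have e2 := congrArg χ e1
  rw [map_mul, map_sub, char_CF, hβ, sub_self, zero_mul, map_one] at e2
  exact zero_ne_one e2

/-- affine functions -/
theorem char_lin {R : ℝ} (hR : ∀ z ∈ D.D, ‖z‖ ≤ R) (χ : characterSpace ℂ (HF I D.D))
    {p : ℂ × ℂ} (hp : ∀ β : ℂ × ℂ →L[ℂ] ℂ, χ (LF I hR β) = β p) (β : ℂ × ℂ →L[ℂ] ℂ) (c : ℂ)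
    {g : I → ℂ × ℂ → ℂ} (hg : ∀ i, UB D.D (g i)) (h : ∀ i, ∀ z ∈ D.D, g i z = (β z - β p) / c) :
    χ (EF hg) = 0 := by
  have h1 : EF hg = (CF I D c⁻¹ * (LF I hR β - CF I D (β p)) : HF I D.D) := by
    apply extF
    intro i z
    refine (h i z z.2).trans ?_
    rw [div_eq_inv_mul]
    rfl
  rw [h1, map_mul, map_sub, char_CF, char_CF, hp, sub_self, mul_zero]

end Pool.Agent.Helper85K9.SC
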