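import Mathlib
import Pool.Agent.Helper85K9.SC.DirY
import Pool.Agent.Helper85K9.SC.Pt

/-!
Localisation theorem in terms of the Bezout equation, and solutions near interior points.
-/

set_option autoImplicit false

open Metric Set Filter Topology

namespace Pool.Agent.Helper85K9.SC

open Pool.Agent.Y263.SC
open Pool.Agent.Y263.LF (Bez Bez.mono)

variable {D O : Set (ℂ × ℂ)} {ρ : ℂ × ℂ → ℝ}

/-- localisation theorem for one linear functional -/
theorem loc_linB (h : StrC D O ρ) (N M : ℕ) (α : ℂ × ℂ →L[ℂ] ℂ) (hα : α ≠ 0) {ε Q : ℝ}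
    (hε : 0 < ε) : ∃ C : ℝ, ∀ f : Fin N → ℂ → ℂ, (∀ i, UB (α '' D) (f i)) →
      ∀ G : Fin M → ℂ × ℂ → ℂ, (∀ m, UB D (G m)) →
      Bez {p | p ∈ D ∧ ∀ i, ‖f i (α p)‖ < ε} G Q →
      Bez D (Sum.elim (fun i z => f i (α z)) G) C := by
  obtain ⟨C, -, hC⟩ := one_linY h N M α hα hε (K := max Q 0) (le_max_right _ _)
  refine ⟨C, ?_⟩
  intro f hf G hG hk
  obtain ⟨k, k1, k2, k3⟩ := hk
  obtain ⟨g, g₀, h1, h2, h3, h4, h5⟩ := hC f (fun i => (hf i).1) (fun i => (hf i).2) G
    (fun m => (hG m).1) (fun m => (hG m).2) k k1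
    (fun m p hp hi => (k2 m p ⟨hp, hi⟩).trans (le_max_left _ _)) (fun p hp hi => k3 p ⟨hp, hi⟩)
  refine ⟨Sum.elim g g₀, ?_, ?_, ?_⟩
  · rintro (i | i)
    · exact h1 i
    · exact h2 i
  · rintro (i | i)
    · exact h3 i
    · exact h4 i
  · intro q hq
    rw [Fintype.sum_sum_type]
    exact h5 q hq

/-- division by `z₂ - p₂` -/
theorem div_snd {p : ℂ × ℂ} {r ε : ℝ} (hr : 0 < r) (hε : 0 < ε) (hεr : ε ≤ r)
    (hD : IsOpen D) (hball : ball p r ⊆ D) {F : ℂ × ℂ → ℂ} (hF : UB D F) :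
    DifferentiableOn ℂ (fun z : ℂ × ℂ => dslope (fun y => F (z.1, y)) p.2 z.2)
      {z | z ∈ D ∧ ‖z.1 - p.1‖ < ε} ∧
    ∀ z ∈ D, ‖z.1 - p.1‖ < ε → ‖dslope (fun y => F (z.1, y)) p.2 z.2‖ ≤ 3 / r := by
  have hin : ∀ w : ℂ, ‖w - p.1‖ < r → ∀ y ∈ ball p.2 r, (w, y) ∈ D := by
    intro w hw y hy
    apply hball
    rw [mem_ball, Prod.dist_eq, max_lt_iff, dist_eq_norm]
    exact ⟨hw, hy⟩
  have hsl : ∀ w : ℂ, DifferentiableOn ℂ (fun y => F (w, y)) {y | (w, y) ∈ D} := by
    intro w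
    refine hF.1.comp (g := F) (f := fun y : ℂ => (w, y)) (by fun_prop) ?_
    intro y hy
    exact hy
  have hsl1 : ∀ y : ℂ, DifferentiableOn ℂ (fun w => F (w, y)) {w | (w, y) ∈ D} := by
    intro y
    refine hF.1.comp (g := F) (f := fun w : ℂ => (w, y)) (by fun_prop) ?_
    intro w hw
    exact hw
  have hb2 : ∀ w y : ℂ, ‖w - p.1‖ < r → (w, y) ∈ D → ‖F (w, y) - F (w, p.2)‖ ≤ 2 := by
    intro w y hw hy
    have h1 := hF.2 _ hy
    have h2 := hF.2 _ (hin w hw p.2 (mem_ball_self hr))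
    have h3 := norm_sub_le (F (w, y)) (F (w, p.2))
    linarith
  have hbd : ∀ w y : ℂ, ‖w - p.1‖ < r → (w, y) ∈ D →
      ‖dslope (fun y => F (w, y)) p.2 y‖ ≤ 3 / r := by
    intro w y hw hy
    by_cases hyr : y ∈ ball p.2 r
    · have h1 := Complex.norm_dslope_le_div_of_mapsTo_ball (f := fun y => F (w, y)) (c := p.2)
        (R₁ := r) (R₂ := 3) (z := y) ((hsl w).mono (fun y hy => hin w hw y hy)) ?_ hyr
      · exact h1
      · intro x hx
        rw [mem_closedBall, dist_eq_norm]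
        have := hb2 w x hw (hin w hw x hx)
        linarith
    · have hyp : y ≠ p.2 := by
        rintro rfl
        exact hyr (mem_ball_self hr)
      rw [dslope_of_ne _ hyp, slope_def_module, norm_smul, norm_inv]
      have h1 : r ≤ ‖y - p.2‖ := by
        rw [mem_ball, dist_eq_norm] at hyr
        exact not_lt.1 hyr
      have h2 := hb2 w y hw hy
      calc ‖y - p.2‖⁻¹ * ‖F (w, y) - F (w, p.2)‖ ≤ r⁻¹ * 2 := by
            refine mul_le_mul (inv_anti₀ hr h1) h2 (norm_nonneg _) (by positivity)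
        _ ≤ 3 / r := by
            rw [div_eq_inv_mul]
            gcongr
            norm_num
  have hTo : IsOpen {z : ℂ × ℂ | z ∈ D ∧ ‖z.1 - p.1‖ < ε} := by
    refine hD.inter ?_
    exact isOpen_lt (continuous_fst.sub continuous_const).norm continuous_const
  refine ⟨?_, fun z hz hzε => hbd z.1 z.2 (lt_of_lt_of_le hzε hεr) hz⟩
  refine Pool.Agent.H788R3.Cor2.osgood2 (E := ℂ) hTo (C := 3 / r)
    (fun z hz => hbd z.1 z.2 (lt_of_lt_of_le hz.2 hεr) hz.1) ?_ ?_
  · intro y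
    by_cases hy : y = p.2
    · subst hy
      simp only [dslope_same]
      -- the derivative is the limit of difference quotients
      set 𝒰 : Ultrafilter ℕ := Ultrafilter.of atTop with h𝒰
      have hle : (𝒰 : Filter ℕ) ≤ atTop := Ultrafilter.of_le _
      set s : ℕ → ℂ := fun n => p.2 + ((r / ((n : ℝ) + 2) : ℝ) : ℂ) with hs
      have hsr : ∀ n, s n ∈ ball p.2 r := by
        intro n
        rw [mem_ball, dist_eq_norm, hs]
        simp only [add_sub_cancel_left, Complex.norm_real]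
        rw [Real.norm_of_nonneg (by positivity), div_lt_iff₀ (by positivity)]
        have : (0 : ℝ) ≤ n := Nat.cast_nonneg n
        nlinarith
      have hsp : ∀ n, s n ≠ p.2 := by
        intro n h0
        have h1 : ((r / ((n : ℝ) + 2) : ℝ) : ℂ) = 0 := by
          have : s n - p.2 = 0 := sub_eq_zero.2 h0
          rw [hs] at this
          simpa using this
        have h2 : r / ((n : ℝ) + 2) = 0 := by exact_mod_cast h1
        have h3 : 0 < r / ((n : ℝ) + 2) := by positivity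
        linarith
      have hslim : Tendsto s atTop (𝓝[≠] p.2) := by
        refine tendsto_nhdsWithin_iff.2 ⟨?_, Eventually.of_forall hsp⟩
        have h1 : Tendsto (fun n : ℕ => r / ((n : ℝ) + 2)) atTop (𝓝 0) := by
          have h2 := (tendsto_one_div_add_atTop_nhds_zero_nat (𝕜 := ℝ)).comp
            (tendsto_add_atTop_nat 1)
          have h3 := h2.const_mul r
          rw [mul_zero] at h3
          refine h3.congr (fun n => ?_)
          simp only [Function.comp_apply]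
          push_cast
          field_simp
          ring
        have h4 : Tendsto (fun n : ℕ => ((r / ((n : ℝ) + 2) : ℝ) : ℂ)) atTop (𝓝 ((0 : ℝ) : ℂ)) :=
          (Complex.continuous_ofReal.tendsto 0).comp h1
        have h5 := h4.const_add p.2
        rw [Complex.ofReal_zero, add_zero] at h5
        exact h5
      have hBo : IsOpen (ball p.1 ε) := isOpen_ball
      obtain ⟨v, hv1, -, hv3⟩ := Pool.Agent.H720R2.Cor.ultra_lim hBo (C := 3 / r) 𝒰
        (fun n w => dslope (fun y => F (w, y)) p.2 (s n)) (by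
          intro n
          simp only [dslope_of_ne _ (hsp n), slope_def_module]
          have h1 : DifferentiableOn ℂ (fun w => F (w, s n)) (ball p.1 ε) :=
            (hsl1 (s n)).mono (fun w hw => hin w (lt_of_lt_of_le (by
              rw [mem_ball, dist_eq_norm] at hw; exact hw) hεr) _ (hsr n))
          have h2 : DifferentiableOn ℂ (fun w => F (w, p.2)) (ball p.1 ε) :=
            (hsl1 p.2).mono (fun w hw => hin w (lt_of_lt_of_le (by
              rw [mem_ball, dist_eq_norm] at hw; exact hw) hεr) _ (mem_ball_self hr))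
          exact (h1.fun_sub h2).fun_const_smul _) (by
          intro n w hw
          rw [mem_ball, dist_eq_norm] at hw
          exact hbd w (s n) (lt_of_lt_of_le hw hεr) (hin w (lt_of_lt_of_le hw hεr) _ (hsr n)))
      have hsub : {w : ℂ | (w, p.2) ∈ {z : ℂ × ℂ | z ∈ D ∧ ‖z.1 - p.1‖ < ε}} ⊆ ball p.1 ε := by
        intro w hw
        rw [mem_ball, dist_eq_norm]
        exact hw.2
      refine (hv1.mono hsub).congr (fun w hw => ?_)
      have hw' := hsub hw
      rw [mem_ball, dist_eq_norm] at hw'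
      have hd : HasDerivAt (fun y => F (w, y)) (deriv (fun y => F (w, y)) p.2) p.2 := by
        refine DifferentiableAt.hasDerivAt ?_
        refine (hsl w).differentiableAt ?_
        exact Filter.mem_of_superset (ball_mem_nhds p.2 hr)
          (fun y hy => hin w (lt_of_lt_of_le hw' hεr) y hy)
      have h1 := (hasDerivAt_iff_tendsto_slope.1 hd).comp hslim
      have h2 : Tendsto (fun n => dslope (fun y => F (w, y)) p.2 (s n)) 𝒰
          (𝓝 (deriv (fun y => F (w, y)) p.2)) := by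
        refine (h1.mono_left hle).congr (fun n => ?_)
        rw [Function.comp_apply, dslope_of_ne _ (hsp n)]
      exact tendsto_nhds_unique h2 (hv3 w (hsub hw))
    · simp only [dslope_of_ne _ hy, slope_def_module]
      have h1 : DifferentiableOn ℂ (fun w => F (w, y))
          {w : ℂ | (w, y) ∈ {z : ℂ × ℂ | z ∈ D ∧ ‖z.1 - p.1‖ < ε}} :=
        (hsl1 y).mono (fun w hw => hw.1)
      have h2 : DifferentiableOn ℂ (fun w => F (w, p.2))
          {w : ℂ | (w, y) ∈ {z : ℂ × ℂ | z ∈ D ∧ ‖z.1 - p.1‖ < ε}} :=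
        (hsl1 p.2).mono (fun w hw => hin w (lt_of_lt_of_le hw.2 hεr) _ (mem_ball_self hr))
      exact (h1.fun_sub h2).fun_const_smul _
  · intro w
    by_cases hw : ‖w - p.1‖ < ε
    · have hset : {y : ℂ | (w, y) ∈ {z : ℂ × ℂ | z ∈ D ∧ ‖z.1 - p.1‖ < ε}} = {y | (w, y) ∈ D} := by
        ext y
        exact ⟨fun hy => hy.1, fun hy => ⟨hy, hw⟩⟩
      rw [hset]
      refine (Complex.differentiableOn_dslope ?_).2 (hsl w)
      exact Filter.mem_of_superset (ball_mem_nhds p.2 hr)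
        (fun y hy => hin w (lt_of_lt_of_le hw hεr) y hy)
    · intro y hy
      exact absurd hy.2 hw

/-- solutions near the complex line `z₁ = p₁` -/
theorem int_loc {p : ℂ × ℂ} {r : ℝ} (hr : 0 < r) (hD : IsOpen D) (hball : ball p r ⊆ D) {η : ℝ}
    (hη : 0 < η) : ∃ ε C : ℝ, 0 < ε ∧ 0 ≤ C ∧ ∀ F : ℂ × ℂ → ℂ, UB D F → η ≤ ‖F p‖ →
    ∃ k k₀ : ℂ × ℂ → ℂ, DifferentiableOn ℂ k {z | z ∈ D ∧ ‖z.1 - p.1‖ < ε} ∧
      DifferentiableOn ℂ k₀ {z | z ∈ D ∧ ‖z.1 - p.1‖ < ε} ∧
      (∀ z ∈ D, ‖z.1 - p.1‖ < ε → ‖k z‖ ≤ C) ∧ (∀ z ∈ D, ‖z.1 - p.1‖ < ε → ‖k₀ z‖ ≤ C) ∧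
      ∀ z ∈ D, ‖z.1 - p.1‖ < ε → F z * k z + (z.2 - p.2) * k₀ z = 1 := by
  obtain ⟨ε, hε⟩ : ∃ ε : ℝ, ε = min r (r * η / 6) := ⟨_, rfl⟩
  have hε0 : 0 < ε := by
    rw [hε]
    exact lt_min hr (by positivity)
  have hεr : ε ≤ r := by rw [hε]; exact min_le_left _ _
  have hε6 : ε ≤ r * η / 6 := by rw [hε]; exact min_le_right _ _
  refine ⟨ε, max (2 / η) (3 / r * (2 / η)), hε0, le_max_of_le_left (by positivity), ?_⟩
  intro F hF hFp
  obtain ⟨hA1, hA2⟩ := div_snd hr hε0 hεr hD hball hF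
  have hin : ∀ w : ℂ, ‖w - p.1‖ < ε → (w, p.2) ∈ D := by
    intro w hw
    apply hball
    rw [mem_ball, Prod.dist_eq, max_lt_iff, dist_eq_norm, dist_self]
    exact ⟨lt_of_lt_of_le hw hεr, hr⟩
  have hlow : ∀ w : ℂ, ‖w - p.1‖ < ε → η / 2 ≤ ‖F (w, p.2)‖ := by
    intro w hw
    have h1 : DifferentiableOn ℂ (fun w => F (w, p.2)) (ball p.1 r) := by
      refine hF.1.comp (g := F) (f := fun w : ℂ => (w, p.2)) (by fun_prop) ?_
      intro x hx
      apply hball
      rw [mem_ball, Prod.dist_eq, max_lt_iff, dist_self]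
      exact ⟨hx, hr⟩
    have h2 : MapsTo (fun w => F (w, p.2)) (ball p.1 r) (closedBall (F (p.1, p.2)) 3) := by
      intro x hx
      rw [mem_closedBall, dist_eq_norm]
      have e1 : (x, p.2) ∈ D := by
        apply hball
        rw [mem_ball, Prod.dist_eq, max_lt_iff, dist_self]
        exact ⟨hx, hr⟩
      have e2 := hF.2 _ e1
      have e3 := hF.2 (p.1, p.2) (hball (mem_ball_self hr))
      have e4 := norm_sub_le (F (x, p.2)) (F (p.1, p.2))
      linarith
    have h3 := Complex.dist_le_div_mul_dist_of_mapsTo_ball (f := fun w => F (w, p.2)) (c := p.1)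
      (z := w) h1 h2 (by
      rw [mem_ball, dist_eq_norm]
      exact lt_of_lt_of_le hw hεr)
    rw [dist_eq_norm, dist_eq_norm] at h3
    have h4 : 3 / r * ‖w - p.1‖ ≤ η / 2 := by
      calc 3 / r * ‖w - p.1‖ ≤ 3 / r * (r * η / 6) := by
            gcongr
            exact hw.le.trans hε6
        _ = η / 2 := by field_simp; ring
    have h5 := norm_sub_norm_le (F p) (F (w, p.2))
    rw [norm_sub_rev] at h5
    have h6 : ‖F (w, p.2) - F p‖ ≤ η / 2 := h3.trans h4
    linarith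
  have hne : ∀ w : ℂ, ‖w - p.1‖ < ε → F (w, p.2) ≠ 0 := by
    intro w hw h0
    have := hlow w hw
    rw [h0, norm_zero] at this
    linarith
  have hkd : DifferentiableOn ℂ (fun z : ℂ × ℂ => (F (z.1, p.2))⁻¹)
      {z | z ∈ D ∧ ‖z.1 - p.1‖ < ε} := by
    refine DifferentiableOn.fun_inv ?_ (fun z hz => hne z.1 hz.2)
    refine hF.1.comp (g := F) (f := fun z : ℂ × ℂ => (z.1, p.2)) (by fun_prop) ?_
    intro z hz
    exact hin z.1 hz.2
  have hkb : ∀ z ∈ D, ‖z.1 - p.1‖ < ε → ‖(F (z.1, p.2))⁻¹‖ ≤ 2 / η := by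
    intro z _ hzε
    rw [norm_inv, show 2 / η = (η / 2)⁻¹ by rw [inv_div]]
    exact inv_anti₀ (by positivity) (hlow z.1 hzε)
  refine ⟨fun z => (F (z.1, p.2))⁻¹,
    fun z => -(dslope (fun y => F (z.1, y)) p.2 z.2 * (F (z.1, p.2))⁻¹), hkd,
    (hA1.mul hkd).neg, ?_, ?_, ?_⟩
  · intro z hz hzε
    exact (hkb z hz hzε).trans (le_max_left _ _)
  · intro z hz hzε
    rw [norm_neg, norm_mul]
    refine le_trans ?_ (le_max_right _ _)
    exact mul_le_mul (hA2 z hz hzε) (hkb z hz hzε) (norm_nonneg _) (by positivity)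
  · intro z hz hzε
    have h1 := sub_smul_dslope (fun y => F (z.1, y)) p.2 z.2
    have h2 := hne z.1 hzε
    rw [smul_eq_mul] at h1
    have h3 : F (z.1, z.2) = F z := rfl
    simp only [h3] at h1
    field_simp
    linear_combination -h1

/-- solutions for data together with the coordinate functions, at an interior point -/
theorem int_bez (h : StrC D O ρ) (N : ℕ) {δ : ℝ} (hδ : 0 < δ) {p : ℂ × ℂ} (hp : p ∈ D) :
    ∃ R C : ℝ, 0 < R ∧ (∀ z ∈ D, ‖z - p‖ ≤ R) ∧ ∀ F : Fin N → ℂ × ℂ → ℂ, (∀ j, UB D (F j)) →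
      δ ≤ ∑ j, ‖F j p‖ →
      Bez D (Sum.elim (fun (_ : Fin 1) (z : ℂ × ℂ) => (z.1 - p.1) / R)
        (Fin.cons (fun z : ℂ × ℂ => (z.2 - p.2) / R) F : Fin (N + 1) → ℂ × ℂ → ℂ)) C := by
  obtain ⟨R₀, hR₀⟩ := h.bdd.subset_closedBall p
  obtain ⟨R, hR⟩ : ∃ R : ℝ, R = max R₀ 1 := ⟨_, rfl⟩
  have hR1 : 0 < R := by rw [hR]; exact lt_of_lt_of_le one_pos (le_max_right _ _)
  have hRc : (R : ℂ) ≠ 0 := by exact_mod_cast hR1.ne'
  have hRn : ‖(R : ℂ)‖ = R := by rw [Complex.norm_real, Real.norm_of_nonneg hR1.le]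
  have hRb : ∀ z ∈ D, ‖z - p‖ ≤ R := by
    intro z hz
    have := hR₀ hz
    rw [mem_closedBall, dist_eq_norm] at this
    rw [hR]
    exact this.trans (le_max_left _ _)
  obtain ⟨r, hr, hball⟩ := Metric.isOpen_iff.1 h.op p hp
  have hη : 0 < δ / (N + 1) := by positivity
  obtain ⟨ε, C₁, hε, hC₁, hloc⟩ := int_loc hr h.op hball hη
  obtain ⟨C, hC⟩ := loc_linB h 1 (N + 1) (ContinuousLinearMap.fst ℂ ℂ ℂ) (by
    intro h0
    have := congrArg (fun T : ℂ × ℂ →L[ℂ] ℂ => T (1, 0)) h0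
    simp at this) (ε := ε / R) (Q := max (R * C₁) C₁) (by positivity)
  refine ⟨R, C, hR1, hRb, ?_⟩
  intro F hF hlow
  obtain ⟨j₀, hj₀⟩ : ∃ j₀, δ / (N + 1) ≤ ‖F j₀ p‖ := by
    by_contra hno
    push Not at hno
    have h1 : ∑ j, ‖F j p‖ ≤ ∑ _j : Fin N, δ / (N + 1) := Finset.sum_le_sum fun j _ => (hno j).le
    rw [Finset.sum_const, Finset.card_univ, Fintype.card_fin, nsmul_eq_mul] at h1
    have h2 : (N : ℝ) * (δ / (N + 1)) < δ := by
      rw [mul_div_assoc', div_lt_iff₀ (by positivity)]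
      nlinarith
    linarith
  obtain ⟨k, k₀, k1, k2, k3, k4, k5⟩ := hloc (F j₀) (hF j₀) hj₀
  have hset : ∀ z : ℂ × ℂ, ‖(z.1 - p.1) / R‖ < ε / R ↔ ‖z.1 - p.1‖ < ε := by
    intro z
    rw [norm_div, hRn, div_lt_div_iff_of_pos_right hR1]
  have hS : {z : ℂ × ℂ | z ∈ D ∧ ∀ _ : Fin 1, ‖((ContinuousLinearMap.fst ℂ ℂ ℂ) z - p.1) / R‖ <
      ε / R} = {z | z ∈ D ∧ ‖z.1 - p.1‖ < ε} := by
    ext z
    constructor
    · rintro ⟨hz, h1⟩
      exact ⟨hz, (hset z).1 (h1 0)⟩
    · rintro ⟨hz, h1⟩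
      exact ⟨hz, fun _ => (hset z).2 h1⟩
  refine hC (fun _ w => (w - p.1) / R) ?_ (Fin.cons (fun z : ℂ × ℂ => (z.2 - p.2) / R) F) ?_ ?_
  · intro _
    refine ⟨by fun_prop, ?_⟩
    rintro _ ⟨z, hz, rfl⟩
    rw [norm_div, hRn, div_le_one hR1]
    exact (norm_fst_le (z - p)).trans (hRb z hz)
  · intro j
    refine Fin.cases ?_ (fun j => ?_) j
    · refine ⟨by
        simp only [Fin.cons_zero]
        fun_prop, fun z hz => ?_⟩
      simp only [Fin.cons_zero]
      rw [norm_div, hRn, div_le_one hR1]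
      exact (norm_snd_le (z - p)).trans (hRb z hz)
    · rw [Fin.cons_succ]
      exact hF j
  · rw [hS]
    refine ⟨Fin.cons (fun z => R * k₀ z) (fun j => if j = j₀ then k else fun _ => 0), ?_, ?_, ?_⟩
    · intro j
      refine Fin.cases ?_ (fun j => ?_) j
      · exact k2.const_mul _
      · rw [Fin.cons_succ]
        split_ifs
        · exact k1
        · exact differentiableOn_const _
    · intro j
      refine Fin.cases ?_ (fun j => ?_) j
      · intro z hz
        rw [Fin.cons_zero, norm_mul, hRn]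
        refine le_trans ?_ (le_max_left _ _)
        have := k4 z hz.1 hz.2
        gcongr
      · intro z hz
        rw [Fin.cons_succ]
        split_ifs
        · exact (k3 z hz.1 hz.2).trans (le_max_right _ _)
        · rw [norm_zero]
          exact hC₁.trans (le_max_right _ _)
    · intro z hz
      rw [Fin.sum_univ_succ]
      simp only [Fin.cons_zero, Fin.cons_succ]
      have h1 : ∑ j : Fin N, F j z * (if j = j₀ then k else fun _ => 0) z = F j₀ z * k z := by
        rw [Finset.sum_eq_single j₀]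
        · rw [if_pos rfl]
        · intro j _ hj
          rw [if_neg hj, mul_zero]
        · intro h0
          exact absurd (Finset.mem_univ _) h0
      rw [h1]
      have h2 := k5 z hz.1 hz.2
      have h3 : (z.2 - p.2) / R * (R * k₀ z) = (z.2 - p.2) * k₀ z := by
        field_simp
      rw [h3, add_comm]
      exact h2

end Pool.Agent.Helper85K9.SC
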