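import Mathlib
import Pool.Agent.Helper85K9.SC.Inn
import Pool.Agent.Helper85K9.SC.Geo

/-!
The corona problem on bounded strictly convex domains of `ℂ²` is local with respect to functions of
the supporting functionals.
-/

set_option autoImplicit false

open Metric Set Filter Topology WeakDual

namespace Pool.Agent.Helper85K9.SC

open Pool.Agent.Y263.SC
open Pool.Agent.Y263.LF (Bez Bez.mono)

variable {D O : Set (ℂ × ℂ)} {ρ : ℂ × ℂ → ℝ}

/-- **Cell theorem**, for families. -/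
theorem cell_scF (h : StrC D O ρ) {I : Type} {N : ℕ} {F : I → Fin N → ℂ × ℂ → ℂ}
    (hF : ∀ i j, UB D (F i j)) {δ : ℝ} (hδ : 0 < δ) (hlow : ∀ i, ∀ z ∈ D, δ ≤ ∑ j, ‖F i j z‖)
    (α : ℂ × ℂ → (ℂ × ℂ →L[ℂ] ℂ)) (hα : ∀ p ∈ frontier D, α p p ∉ α p '' D)
    (hloc : ∀ p ∈ frontier D, ∃ (L : ℕ) (r ε Q : ℝ), 0 < r ∧ 0 < ε ∧ ∀ i,
      ∃ f : Fin L → ℂ → ℂ, (∀ l, UB (α p '' D) (f l)) ∧ ∀ z₀ ∈ D ∩ ball p r,
        Bez {z | z ∈ D ∩ ball p r ∧ ∀ l, ‖f l (α p z) - f l (α p z₀)‖ < ε} (F i) Q) :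
    ∃ C : ℝ, ∀ i, Bez D (F i) C := by
  classical
  by_contra hns
  obtain ⟨E, hE⟩ : ∃ E : OD (ℂ × ℂ), E.D = D := ⟨⟨D, h.op⟩, rfl⟩
  subst hE
  obtain ⟨χ, hχ⟩ := zeroF hF hns
  obtain ⟨R₀, hR₀⟩ := h.bdd.subset_closedBall (0 : ℂ × ℂ)
  have hR₀' : ∀ z ∈ E.D, ‖z‖ ≤ R₀ := fun z hz => by
    have := hR₀ hz
    rwa [mem_closedBall_zero_iff] at this
  obtain ⟨p, hpc, hp⟩ := pt_ex h.cvx hR₀' χ
  have hne : (E.D).Nonempty := closure_nonempty_iff.1 ⟨p, hpc⟩
  by_cases hpD : p ∈ E.D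
  · -- interior points
    obtain ⟨R, C, hR, hRb, hC⟩ := int_bez h N hδ hpD
    have hRn : ‖(R : ℂ)‖ = R := by rw [Complex.norm_real, Real.norm_of_nonneg hR.le]
    have hUB : ∀ (i : I) (o : Fin 1 ⊕ Fin (N + 1)),
        UB E.D (Sum.elim (fun (_ : Fin 1) (z : ℂ × ℂ) => (z.1 - p.1) / (R : ℂ))
        (Fin.cons (fun z : ℂ × ℂ => (z.2 - p.2) / (R : ℂ)) (F i) :
          Fin (N + 1) → ℂ × ℂ → ℂ) o) := by
      rintro i (o | o)
      · refine ⟨by
          simp only [Sum.elim_inl]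
          fun_prop, fun z hz => ?_⟩
        simp only [Sum.elim_inl]
        rw [norm_div, hRn, div_le_one hR]
        exact (norm_fst_le (z - p)).trans (hRb z hz)
      · refine Fin.cases ?_ (fun j => ?_) o
        · refine ⟨by
            simp only [Sum.elim_inr, Fin.cons_zero]
            fun_prop, fun z hz => ?_⟩
          simp only [Sum.elim_inr, Fin.cons_zero]
          rw [norm_div, hRn, div_le_one hR]
          exact (norm_snd_le (z - p)).trans (hRb z hz)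
        · simp only [Sum.elim_inr, Fin.cons_succ]
          exact hF i j
    refine nosolvF (F := fun i => Sum.elim (fun (_ : Fin 1) (z : ℂ × ℂ) => (z.1 - p.1) / (R : ℂ))
        (Fin.cons (fun z : ℂ × ℂ => (z.2 - p.2) / (R : ℂ)) (F i) :
          Fin (N + 1) → ℂ × ℂ → ℂ)) hUB χ ?_ ⟨C, fun i => hC (F i) (hF i) (hlow i p hpD)⟩
    rintro (o | o)
    · exact char_lin hR₀' χ hp (ContinuousLinearMap.fst ℂ ℂ ℂ) (R : ℂ) _ (fun i z _ => rfl)
    · refine Fin.cases ?_ (fun j => ?_) o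
      · exact char_lin hR₀' χ hp (ContinuousLinearMap.snd ℂ ℂ ℂ) (R : ℂ) _ (fun i z _ => rfl)
      · exact hχ j
  · -- boundary points
    have hpf : p ∈ frontier E.D := ⟨hpc, by rwa [h.op.interior_eq]⟩
    have hαp := hα p hpf
    have hα0 : α p ≠ 0 := by
      intro h0
      obtain ⟨z, hz⟩ := hne
      rw [h0] at hαp
      exact hαp ⟨z, hz, by simp⟩
    obtain ⟨L, r, ε, Q, hr, hε, hloc'⟩ := hloc p hpf
    choose f hf hcell using hloc'
    obtain ⟨η, hη, hnear⟩ := supp_near h hpc hαp hr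
    obtain ⟨R, hR⟩ : ∃ R : ℝ, R = ‖α p‖ * (R₀ + ‖p‖) + 1 := ⟨_, rfl⟩
    have hR₀0 : 0 ≤ R₀ := by
      obtain ⟨z, hz⟩ := hne
      exact (norm_nonneg z).trans (hR₀' z hz)
    have hR0 : 0 < R := by rw [hR]; positivity
    have hRn : ‖(R : ℂ)‖ = R := by rw [Complex.norm_real, Real.norm_of_nonneg hR0.le]
    have hRb : ∀ z ∈ E.D, ‖α p z - α p p‖ ≤ R := by
      intro z hz
      rw [← map_sub]
      have h1 := (α p).le_opNorm (z - p)
      have h2 := norm_sub_le z p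
      have h3 := hR₀' z hz
      have h4 : ‖α p‖ * ‖z - p‖ ≤ ‖α p‖ * (R₀ + ‖p‖) := by
        gcongr
        linarith
      rw [hR]
      linarith
    have hmem : ∀ z ∈ E.D, α p z ∈ α p '' E.D := fun z hz => mem_image_of_mem _ hz
    have hfU : ∀ i l, UB E.D (fun z => f i l (α p z)) := fun i l =>
      ⟨(hf i l).1.comp (α p).differentiable.differentiableOn hmem,
        fun z hz => (hf i l).2 _ (hmem z hz)⟩
    obtain ⟨c, hc⟩ : ∃ c : Fin L → ℂ, ∀ l, c l = χ (EF (f := fun i z => f i l (α p z))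
      (fun i => hfU i l)) := ⟨_, fun l => rfl⟩
    have hc1 : ∀ l, ‖c l‖ ≤ 1 := by
      intro l
      rw [hc l]
      exact char_EF_le χ _
    obtain ⟨ε', hε'⟩ : ∃ ε' : ℝ, ε' = min (η / R) (ε / 4) := ⟨_, rfl⟩
    have hε'0 : 0 < ε' := by rw [hε']; exact lt_min (by positivity) (by positivity)
    have hε'1 : ε' ≤ η / R := by rw [hε']; exact min_le_left _ _
    have hε'2 : ε' ≤ ε / 4 := by rw [hε']; exact min_le_right _ _
    obtain ⟨C, hC⟩ := loc_linB h (L + 1) N (α p) hα0 (ε := ε') (Q := Q) hε'0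
    obtain ⟨f', hf'⟩ : ∃ f' : I → Fin (L + 1) → ℂ → ℂ, ∀ i, f' i =
      Fin.cons (fun w : ℂ => (w - α p p) / (R : ℂ)) (fun l w => (f i l w - c l) / 2) :=
      ⟨_, fun i => rfl⟩
    have hf'0 : ∀ i w, f' i 0 w = (w - α p p) / (R : ℂ) := fun i w => by rw [hf']; rfl
    have hf's : ∀ i l w, f' i (Fin.succ l) w = (f i l w - c l) / 2 := fun i l w => by
      rw [hf']; rfl
    have hf'U : ∀ i o, UB (α p '' E.D) (f' i o) := by
      intro i o
      refine Fin.cases ?_ (fun l => ?_) o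
      · refine ⟨?_, ?_⟩
        · refine DifferentiableOn.congr (f := fun w => (w - α p p) / (R : ℂ)) (by fun_prop)
            (fun w _ => hf'0 i w)
        · rintro _ ⟨z, hz, rfl⟩
          rw [hf'0, norm_div, hRn, div_le_one hR0]
          exact hRb z hz
      · refine ⟨?_, ?_⟩
        · exact DifferentiableOn.congr (((hf i l).1.sub_const (c l)).div_const 2)
            (fun w _ => hf's i l w)
        · intro w hw
          rw [hf's, norm_div, show ‖(2 : ℂ)‖ = 2 by norm_num, div_le_one (by norm_num)]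
          have h1 := (hf i l).2 w hw
          have h2 := hc1 l
          have h3 := norm_sub_le (f i l w) (c l)
          linarith
    have hsol : ∀ i, Bez E.D (Sum.elim (fun (o : Fin (L + 1)) z => f' i o (α p z)) (F i)) C := by
      intro i
      refine hC (f' i) (hf'U i) (F i) (hF i) ?_
      by_cases hex : ∃ z₀ ∈ E.D, ∀ o, ‖f' i o (α p z₀)‖ < ε'
      · obtain ⟨z₀, hz₀, hz₀f⟩ := hex
        have key : ∀ z ∈ E.D, (∀ o, ‖f' i o (α p z)‖ < ε') → z ∈ ball p r ∧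
            ∀ l, ‖f i l (α p z) - c l‖ < ε / 2 := by
          intro z hz hzf
          refine ⟨hnear z hz ?_, fun l => ?_⟩
          · have h1 := hzf 0
            rw [hf'0, norm_div, hRn, div_lt_iff₀ hR0] at h1
            have h2 : ε' * R ≤ η := by
              calc ε' * R ≤ η / R * R := by gcongr
                _ = η := div_mul_cancel₀ _ hR0.ne'
            linarith
          · have h1 := hzf (Fin.succ l)
            rw [hf's, norm_div, show ‖(2 : ℂ)‖ = 2 by norm_num] at h1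
            linarith
        obtain ⟨k1, k2⟩ := key z₀ hz₀ hz₀f
        refine (hcell i z₀ ⟨hz₀, k1⟩).mono ?_ le_rfl
        rintro z ⟨hz, hzf⟩
        obtain ⟨k3, k4⟩ := key z hz hzf
        refine ⟨⟨hz, k3⟩, fun l => ?_⟩
        have h8 : f i l (α p z) - f i l (α p z₀) =
            (f i l (α p z) - c l) - (f i l (α p z₀) - c l) := by ring
        rw [h8]
        have h9 := norm_sub_le (f i l (α p z) - c l) (f i l (α p z₀) - c l)
        have h6 := k2 l
        have h7 := k4 l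
        linarith
      · have hemp : {z : ℂ × ℂ | z ∈ E.D ∧ ∀ o, ‖f' i o (α p z)‖ < ε'} = ∅ := by
          rw [eq_empty_iff_forall_notMem]
          rintro z ⟨hz, hzf⟩
          exact hex ⟨z, hz, hzf⟩
        rw [hemp]
        exact ⟨fun _ _ => 0, fun _ => differentiableOn_const _, fun _ z hz => hz.elim,
          fun z hz => hz.elim⟩
    have hUB : ∀ (i : I) (o : Fin (L + 1) ⊕ Fin N),
        UB E.D (Sum.elim (fun (o : Fin (L + 1)) z => f' i o (α p z)) (F i) o) := by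
      rintro i (o | j)
      · exact ⟨(hf'U i o).1.comp (α p).differentiable.differentiableOn hmem,
          fun z hz => (hf'U i o).2 _ (hmem z hz)⟩
      · exact hF i j
    refine nosolvF (F := fun i => Sum.elim (fun (o : Fin (L + 1)) z => f' i o (α p z)) (F i))
      hUB χ ?_ ⟨C, hsol⟩
    rintro (o | j)
    · refine Fin.cases ?_ (fun l => ?_) o
      · exact char_lin hR₀' χ hp (α p) (R : ℂ) _ (fun i z _ => hf'0 i _)
      · have h1 := char_aff χ (f := fun i z => f i l (α p z))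
          (g := fun i z => f' i (Fin.succ l) (α p z)) (fun i => hfU i l)
          (fun i => hUB i (Sum.inl (Fin.succ l))) (1 / 2) (-(c l) / 2) (fun i z _ => by
            rw [hf's]
            ring)
        refine h1.trans ?_
        rw [← hc l]
        ring
    · exact hχ j

/-- **Cell theorem** with a common bound. -/
theorem cell_sc (h : StrC D O ρ) (N : ℕ) {δ : ℝ} (hδ : 0 < δ)
    (α : ℂ × ℂ → (ℂ × ℂ →L[ℂ] ℂ)) (hα : ∀ p ∈ frontier D, α p p ∉ α p '' D)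
    (L : ℂ × ℂ → ℕ) (r ε Q : ℂ × ℂ → ℝ) (hpos : ∀ p, 0 < r p ∧ 0 < ε p) :
    ∃ C : ℝ, ∀ F : Fin N → ℂ × ℂ → ℂ, (∀ j, UB D (F j)) → (∀ z ∈ D, δ ≤ ∑ j, ‖F j z‖) →
    (∀ p ∈ frontier D, ∃ f : Fin (L p) → ℂ → ℂ, (∀ l, UB (α p '' D) (f l)) ∧
      ∀ z₀ ∈ D ∩ ball p (r p),
        Bez {z | z ∈ D ∩ ball p (r p) ∧ ∀ l, ‖f l (α p z) - f l (α p z₀)‖ < ε p} F (Q p)) →
    Bez D F C := by
  obtain ⟨C, hC⟩ := cell_scF h (I := {F : Fin N → ℂ × ℂ → ℂ // (∀ j, UB D (F j)) ∧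
      (∀ z ∈ D, δ ≤ ∑ j, ‖F j z‖) ∧
      (∀ p ∈ frontier D, ∃ f : Fin (L p) → ℂ → ℂ, (∀ l, UB (α p '' D) (f l)) ∧
      ∀ z₀ ∈ D ∩ ball p (r p),
        Bez {z | z ∈ D ∩ ball p (r p) ∧ ∀ l, ‖f l (α p z) - f l (α p z₀)‖ < ε p} F (Q p))})
    (F := fun x => x.1) (fun x => x.2.1) hδ (fun x => x.2.2.1) α hα
    (fun p hp => ⟨L p, r p, ε p, Q p, (hpos p).1, (hpos p).2, fun x => x.2.2.2 p hp⟩)
  exact ⟨C, fun F h1 h2 h3 => hC ⟨F, h1, h2, h3⟩⟩

end Pool.Agent.Helper85K9.SC
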