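import Mathlib
import Pool.Agent.Helper85K9.SC.Fam

/-!
Solutions of the Bezout equation for functions close to polynomials in one function.
-/

set_option autoImplicit false

open Metric Set Filter Topology Polynomial

namespace Pool.Agent.Helper85K9.SC

open Pool.Agent.Y263.LF (Bez Bez.mono)

/-- the polynomial function with coefficients `P` -/
noncomputable def pf {K : ℕ} (P : Fin K → ℂ) (w : ℂ) : ℂ := ∑ k, P k * w ^ (k : ℕ)

theorem pf_diff {K : ℕ} (P : Fin K → ℂ) : Differentiable ℂ (pf P) := by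
  unfold pf
  fun_prop

theorem pf_sub_le {K : ℕ} {P P' : Fin K → ℂ} {τ : ℝ} (h : ∀ k, ‖P k - P' k‖ ≤ τ) {w : ℂ}
    (hw : ‖w‖ ≤ 1) : ‖pf P w - pf P' w‖ ≤ K * τ := by
  unfold pf
  rw [← Finset.sum_sub_distrib]
  refine (norm_sum_le _ _).trans ?_
  have h1 : ∀ k ∈ (Finset.univ : Finset (Fin K)), ‖P k * w ^ (k : ℕ) - P' k * w ^ (k : ℕ)‖ ≤ τ := by
    intro k _
    rw [← sub_mul, norm_mul, norm_pow]
    have h2 : ‖w‖ ^ (k : ℕ) ≤ 1 := pow_le_one₀ (norm_nonneg _) hw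
    calc ‖P k - P' k‖ * ‖w‖ ^ (k : ℕ) ≤ ‖P k - P' k‖ * 1 := by gcongr
      _ ≤ τ := by rw [mul_one]; exact h k
  refine (Finset.sum_le_sum h1).trans (le_of_eq ?_)
  simp

theorem pf_poly {K : ℕ} (P : Fin K → ℂ) : ∃ p : ℂ[X], ∀ w, p.eval w = pf P w := by
  refine ⟨∑ k, C (P k) * X ^ (k : ℕ), fun w => ?_⟩
  rw [eval_finsetSum]
  unfold pf
  simp

theorem poly_bd {ι : Type} [Fintype ι] (q : ι → ℂ[X]) : ∃ B : ℝ, 0 ≤ B ∧ ∀ i, ∀ w : ℂ, ‖w‖ ≤ 1 →
    ‖(q i).eval w‖ ≤ B := by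
  have h1 : ∀ i, ∃ B : ℝ, ∀ w ∈ closedBall (0 : ℂ) 1, ‖(q i).eval w‖ ≤ B := fun i =>
    (isCompact_closedBall (0 : ℂ) 1).exists_bound_of_continuousOn (q i).continuous.continuousOn
  choose B hB using h1
  refine ⟨∑ i, |B i|, Finset.sum_nonneg fun i _ => abs_nonneg _, fun i w hw => ?_⟩
  refine (hB i w (mem_closedBall_zero_iff.2 hw)).trans ((le_abs_self _).trans ?_)
  exact Finset.single_le_sum (f := fun i => |B i|) (fun i _ => abs_nonneg _) (Finset.mem_univ i)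

/-- Bezout equation for polynomials near a given tuple -/
theorem poly_near {N K : ℕ} {δ : ℝ} (hδ : 0 < δ) (P₀ : Fin N → Fin K → ℂ) :
    ∃ Q τ : ℝ, 0 < τ ∧ ∀ P : Fin N → Fin K → ℂ, (∀ j k, ‖P j k - P₀ j k‖ ≤ τ) →
      ∃ g : Fin N → ℂ → ℂ, ∀ w : ℂ, ‖w‖ ≤ 1 → δ ≤ ∑ j, ‖pf (P j) w‖ →
        (∀ j, DifferentiableAt ℂ (g j) w) ∧ (∀ j, ‖g j w‖ ≤ Q) ∧ ∑ j, pf (P j) w * g j w = 1 := by
  classical
  choose p hp using fun j => pf_poly (P₀ j)
  obtain ⟨S, hS⟩ : ∃ S : ℂ[X], Ideal.span (Set.range p) = Ideal.span {S} := by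
    have h1 := (IsPrincipalIdealRing.principal (Ideal.span (Set.range p))).principal
    exact h1
  have hSm : S ∈ Ideal.span (Set.range p) := by
    rw [hS]
    exact Ideal.mem_span_singleton_self S
  obtain ⟨q, hq⟩ := Ideal.mem_span_range_iff_exists_fun.1 hSm
  have hdiv : ∀ j, ∃ s : ℂ[X], p j = S * s := by
    intro j
    have h1 : p j ∈ Ideal.span {S} := by
      rw [← hS]
      exact Ideal.subset_span ⟨j, rfl⟩
    exact Ideal.mem_span_singleton.1 h1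
  choose s hs using hdiv
  obtain ⟨B₁, hB₁, hqb⟩ := poly_bd q
  obtain ⟨B₂, hB₂, hsb⟩ := poly_bd s
  obtain ⟨σ, hσ⟩ : ∃ σ : ℝ, σ = δ / (2 * (N * B₂ + 1)) := ⟨_, rfl⟩
  have hσ0 : 0 < σ := by rw [hσ]; positivity
  obtain ⟨τ, hτ⟩ : ∃ τ : ℝ, τ = min (δ / (2 * (N * K + 1))) (1 / (2 * (N * K * (B₁ / σ) + 1))) :=
    ⟨_, rfl⟩
  have hτ0 : 0 < τ := by
    rw [hτ]
    exact lt_min (by positivity) (by positivity)
  have hτ1 : N * (K * τ) ≤ δ / 2 := by
    have h1 : τ ≤ δ / (2 * (N * K + 1)) := by rw [hτ]; exact min_le_left _ _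
    have h2 : (N : ℝ) * (K * (δ / (2 * (N * K + 1)))) ≤ δ / 2 := by
      rw [← mul_assoc, mul_div_assoc', div_le_div_iff₀ (by positivity) (by norm_num)]
      have : (0 : ℝ) ≤ N * K := by positivity
      nlinarith
    refine le_trans ?_ h2
    gcongr
  have hτ2 : N * (K * τ * (B₁ / σ)) ≤ 1 / 2 := by
    have h1 : τ ≤ 1 / (2 * (N * K * (B₁ / σ) + 1)) := by rw [hτ]; exact min_le_right _ _
    have h3 : 0 ≤ (N : ℝ) * K * (B₁ / σ) := by positivity
    have h2 : (N : ℝ) * K * (B₁ / σ) * (1 / (2 * (N * K * (B₁ / σ) + 1))) ≤ 1 / 2 := by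
      rw [mul_one_div, div_le_div_iff₀ (by positivity) (by norm_num)]
      linarith
    calc N * (K * τ * (B₁ / σ)) = N * K * (B₁ / σ) * τ := by ring
      _ ≤ N * K * (B₁ / σ) * (1 / (2 * (N * K * (B₁ / σ) + 1))) := by gcongr
      _ ≤ 1 / 2 := h2
  refine ⟨2 * (B₁ / σ), τ, hτ0, ?_⟩
  intro P hP
  obtain ⟨g₀, hg₀⟩ : ∃ g₀ : Fin N → ℂ → ℂ, ∀ j w, g₀ j w = (q j).eval w * (S.eval w)⁻¹ :=
    ⟨fun j w => (q j).eval w * (S.eval w)⁻¹, fun _ _ => rfl⟩
  obtain ⟨E, hE⟩ : ∃ E : ℂ → ℂ, ∀ w, E w = ∑ j, pf (P j) w * g₀ j w :=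
    ⟨fun w => ∑ j, pf (P j) w * g₀ j w, fun _ => rfl⟩
  refine ⟨fun j w => g₀ j w * (E w)⁻¹, ?_⟩
  intro w hw hlow
  have hclose : ∀ j, ‖pf (P j) w - (p j).eval w‖ ≤ K * τ := fun j => by
    rw [hp]
    exact pf_sub_le (hP j) hw
  have h1 : δ / 2 ≤ ∑ j, ‖(p j).eval w‖ := by
    have h2 : ∑ j, ‖pf (P j) w‖ ≤ ∑ j, (‖(p j).eval w‖ + K * τ) := by
      refine Finset.sum_le_sum fun j _ => ?_
      have h3 := norm_sub_norm_le (pf (P j) w) ((p j).eval w)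
      have h4 := hclose j
      linarith
    rw [Finset.sum_add_distrib, Finset.sum_const, Finset.card_univ, Fintype.card_fin,
      nsmul_eq_mul] at h2
    linarith
  have h2 : σ ≤ ‖S.eval w‖ := by
    have h3 : ∑ j, ‖(p j).eval w‖ ≤ ‖S.eval w‖ * (N * B₂) := by
      have h4 : ∀ j ∈ (Finset.univ : Finset (Fin N)), ‖(p j).eval w‖ ≤ ‖S.eval w‖ * B₂ := by
        intro j _
        rw [hs j, eval_mul, norm_mul]
        have := hsb j w hw
        gcongr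
      refine (Finset.sum_le_sum h4).trans (le_of_eq ?_)
      rw [Finset.sum_const, Finset.card_univ, Fintype.card_fin, nsmul_eq_mul]
      ring
    rw [hσ, div_le_iff₀ (by positivity)]
    have h5 := norm_nonneg (S.eval w)
    nlinarith
  have hS0 : S.eval w ≠ 0 := norm_pos_iff.1 (lt_of_lt_of_le hσ0 h2)
  have hg₀b : ∀ j, ‖g₀ j w‖ ≤ B₁ / σ := by
    intro j
    rw [hg₀, norm_mul, norm_inv, div_eq_mul_inv]
    have h3 := hqb j w hw
    have h4 := inv_anti₀ hσ0 h2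
    gcongr
  have hid : ∑ j, (p j).eval w * g₀ j w = 1 := by
    have h3 := congrArg (fun T : ℂ[X] => T.eval w) hq
    simp only [eval_finsetSum, eval_mul] at h3
    have h4 : ∀ j, (p j).eval w * g₀ j w = ((q j).eval w * (p j).eval w) * (S.eval w)⁻¹ := by
      intro j
      rw [hg₀]
      ring
    simp only [h4]
    rw [← Finset.sum_mul, h3]
    exact mul_inv_cancel₀ hS0
  have hE1 : ‖E w - 1‖ ≤ 1 / 2 := by
    have h3 : E w - 1 = ∑ j, (pf (P j) w - (p j).eval w) * g₀ j w := by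
      rw [hE, ← hid, ← Finset.sum_sub_distrib]
      refine Finset.sum_congr rfl fun j _ => ?_
      ring
    rw [h3]
    refine (norm_sum_le _ _).trans ?_
    have h4 : ∀ j ∈ (Finset.univ : Finset (Fin N)), ‖(pf (P j) w - (p j).eval w) * g₀ j w‖ ≤
        K * τ * (B₁ / σ) := by
      intro j _
      rw [norm_mul]
      have h5 := hclose j
      have h6 := hg₀b j
      gcongr
    refine (Finset.sum_le_sum h4).trans ?_
    rw [Finset.sum_const, Finset.card_univ, Fintype.card_fin, nsmul_eq_mul]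
    exact hτ2
  have hE2 : 1 / 2 ≤ ‖E w‖ := by
    have h3 := norm_sub_norm_le (1 : ℂ) (E w)
    rw [norm_one, norm_sub_rev] at h3
    linarith
  have hE0 : E w ≠ 0 := norm_pos_iff.1 (lt_of_lt_of_le (by norm_num) hE2)
  have hg₀d : ∀ j, DifferentiableAt ℂ (g₀ j) w := by
    intro j
    have h3 : g₀ j = fun w => (q j).eval w * (S.eval w)⁻¹ := funext (hg₀ j)
    rw [h3]
    exact (q j).differentiable.differentiableAt.fun_mul
      (S.differentiable.differentiableAt.fun_inv hS0)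
  have hEd : DifferentiableAt ℂ E w := by
    have h3 : E = fun w => ∑ j, pf (P j) w * g₀ j w := funext hE
    rw [h3]
    exact DifferentiableAt.fun_sum fun j _ =>
      (pf_diff (P j)).differentiableAt.fun_mul (hg₀d j)
  refine ⟨fun j => (hg₀d j).fun_mul (hEd.fun_inv hE0), fun j => ?_, ?_⟩
  · rw [norm_mul, norm_inv]
    have h3 := hg₀b j
    have h4 : ‖E w‖⁻¹ ≤ 2 := by
      have := inv_anti₀ (by norm_num : (0 : ℝ) < 1 / 2) hE2
      norm_num at this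
      exact this
    have h5 : 0 ≤ B₁ / σ := by positivity
    calc ‖g₀ j w‖ * ‖E w‖⁻¹ ≤ B₁ / σ * 2 := by gcongr
      _ = 2 * (B₁ / σ) := by ring
  · have h3 : ∀ j, pf (P j) w * (g₀ j w * (E w)⁻¹) = pf (P j) w * g₀ j w * (E w)⁻¹ := fun j => by
      ring
    simp only [h3]
    rw [← Finset.sum_mul, ← hE]
    exact mul_inv_cancel₀ hE0

/-- Bezout equation for polynomials, with a common bound -/
theorem poly_all (N K : ℕ) (M : ℝ) {δ : ℝ} (hδ : 0 < δ) : ∃ Q : ℝ, 0 ≤ Q ∧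
    ∀ P : Fin N → Fin K → ℂ, (∀ j k, ‖P j k‖ ≤ M) →
      ∃ g : Fin N → ℂ → ℂ, ∀ w : ℂ, ‖w‖ ≤ 1 → δ ≤ ∑ j, ‖pf (P j) w‖ →
        (∀ j, DifferentiableAt ℂ (g j) w) ∧ (∀ j, ‖g j w‖ ≤ Q) ∧ ∑ j, pf (P j) w * g j w = 1 := by
  classical
  choose Q τ hτ hQ using fun P₀ : Fin N → Fin K → ℂ => poly_near hδ P₀
  have hcomp : IsCompact (closedBall (0 : Fin N → Fin K → ℂ) (max M 0)) :=
    isCompact_closedBall _ _
  obtain ⟨t, -, ht⟩ := hcomp.elim_nhds_subcover (fun P₀ => ball P₀ (τ P₀))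
    (fun P₀ _ => ball_mem_nhds P₀ (hτ P₀))
  refine ⟨∑ P₀ ∈ t, |Q P₀|, Finset.sum_nonneg fun _ _ => abs_nonneg _, ?_⟩
  intro P hP
  have hPm : P ∈ closedBall (0 : Fin N → Fin K → ℂ) (max M 0) := by
    rw [mem_closedBall_zero_iff, pi_norm_le_iff_of_nonneg (le_max_right _ _)]
    intro j
    rw [pi_norm_le_iff_of_nonneg (le_max_right _ _)]
    intro k
    exact (hP j k).trans (le_max_left _ _)
  have h1 := ht hPm
  simp only [mem_iUnion, exists_prop] at h1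
  obtain ⟨P₀, hP₀, hPP⟩ := h1
  obtain ⟨g, hg⟩ := hQ P₀ P (fun j k => by
    rw [mem_ball, dist_eq_norm] at hPP
    have h2 := norm_le_pi_norm (P - P₀) j
    have h3 := norm_le_pi_norm ((P - P₀) j) k
    exact (h3.trans h2).trans hPP.le)
  refine ⟨g, fun w hw hlow => ?_⟩
  obtain ⟨g1, g2, g3⟩ := hg w hw hlow
  refine ⟨g1, fun j => (g2 j).trans ((le_abs_self _).trans ?_), g3⟩
  exact Finset.single_le_sum (f := fun P₀ => |Q P₀|) (fun _ _ => abs_nonneg _) hP₀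

/-- **Functions close to polynomials in one function.** -/
theorem poly_bez (N K : ℕ) (M : ℝ) {δ : ℝ} (hδ : 0 < δ) : ∃ Q η : ℝ, 0 < η ∧
    ∀ (X : Type) [NormedAddCommGroup X] [NormedSpace ℂ X] (S : Set X) (F : Fin N → X → ℂ)
      (G : X → ℂ) (P : Fin N → Fin K → ℂ), (∀ j, DifferentiableOn ℂ (F j) S) →
      (∀ z ∈ S, δ ≤ ∑ j, ‖F j z‖) → UB S G → (∀ j k, ‖P j k‖ ≤ M) →
      (∀ j, ∀ z ∈ S, ‖F j z - ∑ k, P j k * G z ^ (k : ℕ)‖ ≤ η) → Bez S F Q := by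
  obtain ⟨Q, hQ, H⟩ := poly_all N K M (half_pos hδ)
  obtain ⟨η, hη⟩ : ∃ η : ℝ, η = min (δ / (2 * (N + 1))) (1 / (2 * (N * Q + 1))) := ⟨_, rfl⟩
  have hη0 : 0 < η := by
    rw [hη]
    exact lt_min (by positivity) (by positivity)
  have hη1 : N * η ≤ δ / 2 := by
    have h1 : η ≤ δ / (2 * (N + 1)) := by rw [hη]; exact min_le_left _ _
    have h2 : (N : ℝ) * (δ / (2 * (N + 1))) ≤ δ / 2 := by
      rw [mul_div_assoc', div_le_div_iff₀ (by positivity) (by norm_num)]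
      have : (0 : ℝ) ≤ N := by positivity
      nlinarith
    refine le_trans ?_ h2
    gcongr
  have hη2 : N * (η * Q) ≤ 1 / 2 := by
    have h1 : η ≤ 1 / (2 * (N * Q + 1)) := by rw [hη]; exact min_le_right _ _
    have h3 : 0 ≤ (N : ℝ) * Q := by positivity
    have h2 : (N : ℝ) * Q * (1 / (2 * (N * Q + 1))) ≤ 1 / 2 := by
      rw [mul_one_div, div_le_div_iff₀ (by positivity) (by norm_num)]
      linarith
    calc N * (η * Q) = N * Q * η := by ring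
      _ ≤ N * Q * (1 / (2 * (N * Q + 1))) := by gcongr
      _ ≤ 1 / 2 := h2
  refine ⟨2 * Q, η, hη0, ?_⟩
  intro X _ _ S F G P hF hlow hG hP hFP
  obtain ⟨g, hg⟩ := H P hP
  have hG1 : ∀ z ∈ S, ‖G z‖ ≤ 1 := hG.2
  have hcl : ∀ j, ∀ z ∈ S, ‖F j z - pf (P j) (G z)‖ ≤ η := hFP
  have hl : ∀ z ∈ S, δ / 2 ≤ ∑ j, ‖pf (P j) (G z)‖ := by
    intro z hz
    have h1 := hlow z hz
    have h2 : ∑ j, ‖F j z‖ ≤ ∑ j, (‖pf (P j) (G z)‖ + η) := by
      refine Finset.sum_le_sum fun j _ => ?_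
      have h3 := norm_sub_norm_le (F j z) (pf (P j) (G z))
      have h4 := hcl j z hz
      linarith
    rw [Finset.sum_add_distrib, Finset.sum_const, Finset.card_univ, Fintype.card_fin,
      nsmul_eq_mul] at h2
    linarith
  obtain ⟨E, hE⟩ : ∃ E : X → ℂ, ∀ z, E z = ∑ j, F j z * g j (G z) :=
    ⟨fun z => ∑ j, F j z * g j (G z), fun _ => rfl⟩
  have hgd : ∀ j, DifferentiableOn ℂ (fun z => g j (G z)) S := by
    intro j z hz
    exact (((hg (G z) (hG1 z hz) (hl z hz)).1 j).comp_differentiableWithinAt z (hG.1 z hz))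
  have hE1 : ∀ z ∈ S, ‖E z - 1‖ ≤ 1 / 2 := by
    intro z hz
    obtain ⟨-, g2, g3⟩ := hg (G z) (hG1 z hz) (hl z hz)
    have h3 : E z - 1 = ∑ j, (F j z - pf (P j) (G z)) * g j (G z) := by
      rw [hE, ← g3, ← Finset.sum_sub_distrib]
      refine Finset.sum_congr rfl fun j _ => ?_
      ring
    rw [h3]
    refine (norm_sum_le _ _).trans ?_
    have h4 : ∀ j ∈ (Finset.univ : Finset (Fin N)), ‖(F j z - pf (P j) (G z)) * g j (G z)‖ ≤
        η * Q := by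
      intro j _
      rw [norm_mul]
      have h5 := hcl j z hz
      have h6 := g2 j
      gcongr
    refine (Finset.sum_le_sum h4).trans ?_
    rw [Finset.sum_const, Finset.card_univ, Fintype.card_fin, nsmul_eq_mul]
    exact hη2
  have hE2 : ∀ z ∈ S, 1 / 2 ≤ ‖E z‖ := by
    intro z hz
    have h3 := norm_sub_norm_le (1 : ℂ) (E z)
    rw [norm_one, norm_sub_rev] at h3
    have := hE1 z hz
    linarith
  have hE0 : ∀ z ∈ S, E z ≠ 0 := fun z hz =>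
    norm_pos_iff.1 (lt_of_lt_of_le (by norm_num) (hE2 z hz))
  have hEd : DifferentiableOn ℂ E S := by
    have h3 : E = fun z => ∑ j, F j z * g j (G z) := funext hE
    rw [h3]
    exact DifferentiableOn.fun_sum fun j _ => (hF j).fun_mul (hgd j)
  refine ⟨fun j z => g j (G z) * (E z)⁻¹, fun j => (hgd j).fun_mul (hEd.fun_inv hE0),
    fun j z hz => ?_, fun z hz => ?_⟩
  · rw [norm_mul, norm_inv]
    have h3 := (hg (G z) (hG1 z hz) (hl z hz)).2.1 j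
    have h4 : ‖E z‖⁻¹ ≤ 2 := by
      have := inv_anti₀ (by norm_num : (0 : ℝ) < 1 / 2) (hE2 z hz)
      norm_num at this
      exact this
    calc ‖g j (G z)‖ * ‖E z‖⁻¹ ≤ Q * 2 := by gcongr
      _ = 2 * Q := by ring
  · have h3 : ∀ j, F j z * (g j (G z) * (E z)⁻¹) = F j z * g j (G z) * (E z)⁻¹ := fun j => by
      ring
    simp only [h3]
    rw [← Finset.sum_mul, ← hE]
    exact mul_inv_cancel₀ (hE0 z hz)

end Pool.Agent.Helper85K9.SC
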