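import Mathlib
import Pool.Agent.Helper85K9.SC.Cell
import Pool.Agent.Helper85K9.SC.Pol

/-!
Corona data on bounded strictly convex domains of `ℂ²` which, on cells near the boundary points, are
close to polynomials in one function.
-/

set_option autoImplicit false

open Metric Set Filter Topology

namespace Pool.Agent.Helper85K9.SC

open Pool.Agent.Y263.SC
open Pool.Agent.Y263.LF (Bez Bez.mono)

variable {D O : Set (ℂ × ℂ)} {ρ : ℂ × ℂ → ℝ}

/-- polynomials in one function on each cell -/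
theorem cell_poly (N : ℕ) {δ : ℝ} (hδ : 0 < δ) : ∃ η : ℕ → ℝ → ℝ, (∀ K M, 0 < η K M) ∧
    ∀ (D O : Set (ℂ × ℂ)) (ρ : ℂ × ℂ → ℝ), StrC D O ρ →
    ∀ (α : ℂ × ℂ → (ℂ × ℂ →L[ℂ] ℂ)), (∀ p ∈ frontier D, α p p ∉ α p '' D) →
    ∀ (L K : ℂ × ℂ → ℕ) (r ε M : ℂ × ℂ → ℝ), (∀ p, 0 < r p ∧ 0 < ε p) →
    ∃ C : ℝ, ∀ F : Fin N → ℂ × ℂ → ℂ, (∀ j, UB D (F j)) → (∀ z ∈ D, δ ≤ ∑ j, ‖F j z‖) →
    (∀ p ∈ frontier D, ∃ f : Fin (L p) → ℂ → ℂ, (∀ l, UB (α p '' D) (f l)) ∧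
      ∀ z₀ ∈ D ∩ ball p (r p), ∃ (G : ℂ × ℂ → ℂ) (P : Fin N → Fin (K p) → ℂ),
        UB {z | z ∈ D ∩ ball p (r p) ∧ ∀ l, ‖f l (α p z) - f l (α p z₀)‖ < ε p} G ∧
        (∀ j k, ‖P j k‖ ≤ M p) ∧
        ∀ j, ∀ z ∈ {z | z ∈ D ∩ ball p (r p) ∧ ∀ l, ‖f l (α p z) - f l (α p z₀)‖ < ε p},
          ‖F j z - ∑ k, P j k * G z ^ (k : ℕ)‖ ≤ η (K p) (M p)) →
    Bez D F C := by
  choose Q η hη hQ using fun (K : ℕ) (M : ℝ) => poly_bez N K M hδ
  refine ⟨η, hη, ?_⟩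
  intro D O ρ h α hα L K r ε M hpos
  obtain ⟨C, hC⟩ := cell_sc h N hδ α hα L r ε (fun p => Q (K p) (M p)) hpos
  refine ⟨C, fun F hF hlow hloc => hC F hF hlow fun p hp => ?_⟩
  obtain ⟨f, hf, hf2⟩ := hloc p hp
  refine ⟨f, hf, fun z₀ hz₀ => ?_⟩
  obtain ⟨G, P, h1, h2, h3⟩ := hf2 z₀ hz₀
  exact hQ (K p) (M p) (ℂ × ℂ) _ F G P (fun j => (hF j).1.mono fun z hz => hz.1.1)
    (fun z hz => hlow z hz.1.1) h1 h2 h3

theorem img_open (h : StrC D O ρ) {α : ℂ × ℂ →L[ℂ] ℂ} (hα : α ≠ 0) : IsOpen (α '' D) :=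
  (α.isOpenMap (by
    obtain ⟨T, hT⟩ := (show ∃ v, α v ≠ 0 from by
      by_contra hno
      push Not at hno
      exact hα (ContinuousLinearMap.ext hno))
    intro w
    refine ⟨(w / α T) • T, ?_⟩
    rw [map_smul, smul_eq_mul, div_mul_cancel₀ _ hT])) _ h.op

/-- functions of a linear functional which is not supporting at `p` -/
theorem osc_ns (h : StrC D O ρ) {α : ℂ × ℂ →L[ℂ] ℂ} (hα : α ≠ 0) {p : ℂ × ℂ}
    (hp : α p ∈ α '' D) {κ : ℝ} (hκ : 0 < κ) : ∃ r : ℝ, 0 < r ∧ ∀ f : ℂ → ℂ, UB (α '' D) f →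
    ∀ z ∈ ball p r, ∀ z₀ ∈ ball p r, ‖f (α z) - f (α z₀)‖ < κ := by
  obtain ⟨R, hR, hball⟩ := Metric.isOpen_iff.1 (img_open h hα) _ hp
  obtain ⟨s, hs⟩ : ∃ s : ℝ, s = min R (κ * R / 12) := ⟨_, rfl⟩
  have hs0 : 0 < s := by rw [hs]; exact lt_min hR (by positivity)
  have hs1 : s ≤ R := by rw [hs]; exact min_le_left _ _
  have hs2 : s ≤ κ * R / 12 := by rw [hs]; exact min_le_right _ _
  refine ⟨s / (‖α‖ + 1), by positivity, fun f hf => ?_⟩
  have key : ∀ z ∈ ball p (s / (‖α‖ + 1)), ‖f (α z) - f (α p)‖ ≤ κ / 4 := by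
    intro z hz
    have h1 : ‖α z - α p‖ < s := by
      rw [← map_sub]
      rw [mem_ball, dist_eq_norm, lt_div_iff₀ (by positivity)] at hz
      have h2 := α.le_opNorm (z - p)
      have h3 := norm_nonneg (z - p)
      nlinarith
    have h2 : DifferentiableOn ℂ f (ball (α p) R) := hf.1.mono hball
    have h3 : MapsTo f (ball (α p) R) (closedBall (f (α p)) 3) := by
      intro x hx
      rw [mem_closedBall, dist_eq_norm]
      have e1 := hf.2 x (hball hx)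
      have e2 := hf.2 (α p) hp
      have e3 := norm_sub_le (f x) (f (α p))
      linarith
    have h4 := Complex.dist_le_div_mul_dist_of_mapsTo_ball (z := α z) h2 h3 (by
      rw [mem_ball, dist_eq_norm]
      linarith)
    rw [dist_eq_norm, dist_eq_norm] at h4
    refine h4.trans ?_
    calc 3 / R * ‖α z - α p‖ ≤ 3 / R * (κ * R / 12) := by
          gcongr
          linarith
      _ = κ / 4 := by field_simp; ring
  intro z hz z₀ hz₀
  have h1 := key z hz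
  have h2 := key z₀ hz₀
  have h3 := norm_sub_le (f (α z) - f (α p)) (f (α z₀) - f (α p))
  rw [sub_sub_sub_cancel_right] at h3
  linarith

/-- **Corona theorem** for polynomials in one arbitrary function whose coefficients are equicontinuous
functions of the point and of functions of finitely many linear functionals. -/
theorem class_sc (h : StrC D O ρ) (N K L : ℕ) {δ : ℝ} (hδ : 0 < δ)
    (α : Fin L → (ℂ × ℂ →L[ℂ] ℂ)) (hα : ∀ l, α l ≠ 0) (κ : ℝ → ℝ) (hκ : ∀ t, 0 < t → 0 < κ t) :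
    ∃ C : ℝ, ∀ (f : Fin L → ℂ → ℂ) (A : Fin N → Fin K → ℂ × ℂ → (Fin L → ℂ) → ℂ)
      (G : ℂ × ℂ → ℂ), (∀ l, UB (α l '' D) (f l)) → UB D G →
      (∀ j k, ∀ z ∈ D, ∀ u : Fin L → ℂ, ‖u‖ ≤ 1 → ‖A j k z u‖ ≤ 1) →
      (∀ j k, ∀ t, 0 < t → ∀ z ∈ D, ∀ z' ∈ D, ∀ u u' : Fin L → ℂ, ‖u‖ ≤ 1 → ‖u'‖ ≤ 1 →
        ‖z - z'‖ < κ t → ‖u - u'‖ < κ t → ‖A j k z u - A j k z' u'‖ ≤ t) →
      (∀ j, DifferentiableOn ℂ (fun z => ∑ k, A j k z (fun l => f l (α l z)) * G z ^ (k : ℕ)) D) →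
      (∀ z ∈ D, δ ≤ ∑ j, ‖∑ k, A j k z (fun l => f l (α l z)) * G z ^ (k : ℕ)‖) →
      Bez D (fun j z => ∑ k, A j k z (fun l => f l (α l z)) * G z ^ (k : ℕ)) C := by
  classical
  have hK : (0 : ℝ) < K + 1 := by positivity
  have hKc : ((K : ℂ) + 1) ≠ 0 := by exact_mod_cast hK.ne'
  have hKn : ‖((K : ℂ) + 1)‖ = K + 1 := by
    have : ((K : ℂ) + 1) = (((K : ℝ) + 1 : ℝ) : ℂ) := by push_cast; ring
    rw [this, Complex.norm_real, Real.norm_of_nonneg hK.le]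
  obtain ⟨Q, η, hη, hQ⟩ := poly_bez N K 1 (δ := δ / (K + 1)) (by positivity)
  have hκ0 := hκ η hη
  -- the family of all data
  let J : Type := {x : (Fin L → ℂ → ℂ) × (Fin N → Fin K → ℂ × ℂ → (Fin L → ℂ) → ℂ) ×
    (ℂ × ℂ → ℂ) // (∀ l, UB (α l '' D) (x.1 l)) ∧ UB D x.2.2 ∧
      (∀ j k, ∀ z ∈ D, ∀ u : Fin L → ℂ, ‖u‖ ≤ 1 → ‖x.2.1 j k z u‖ ≤ 1) ∧
      (∀ j k, ∀ t, 0 < t → ∀ z ∈ D, ∀ z' ∈ D, ∀ u u' : Fin L → ℂ, ‖u‖ ≤ 1 → ‖u'‖ ≤ 1 →
        ‖z - z'‖ < κ t → ‖u - u'‖ < κ t → ‖x.2.1 j k z u - x.2.1 j k z' u'‖ ≤ t) ∧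
      (∀ j, DifferentiableOn ℂ
        (fun z => ∑ k, x.2.1 j k z (fun l => x.1 l (α l z)) * x.2.2 z ^ (k : ℕ)) D) ∧
      ∀ z ∈ D, δ ≤ ∑ j, ‖∑ k, x.2.1 j k z (fun l => x.1 l (α l z)) * x.2.2 z ^ (k : ℕ)‖}
  have hu1 : ∀ x : J, ∀ z ∈ D, ‖(fun l => x.1.1 l (α l z) : Fin L → ℂ)‖ ≤ 1 := by
    intro x z hz
    rw [pi_norm_le_iff_of_nonneg zero_le_one]
    exact fun l => (x.2.1 l).2 _ (mem_image_of_mem _ hz)
  have hUB : ∀ (x : J) (j : Fin N), UB D (fun z =>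
      (∑ k, x.1.2.1 j k z (fun l => x.1.1 l (α l z)) * x.1.2.2 z ^ (k : ℕ)) / ((K : ℂ) + 1)) := by
    intro x j
    refine ⟨?_, fun z hz => ?_⟩
    · have h1 := x.2.2.2.2.2.1 j
      simp only [div_eq_mul_inv]
      exact h1.mul_const _
    · rw [norm_div, hKn, div_le_one hK]
      refine (norm_sum_le _ _).trans ?_
      have h1 : ∀ k ∈ (Finset.univ : Finset (Fin K)),
          ‖x.1.2.1 j k z (fun l => x.1.1 l (α l z)) * x.1.2.2 z ^ (k : ℕ)‖ ≤ 1 := by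
        intro k _
        rw [norm_mul, norm_pow]
        have h2 := x.2.2.2.1 j k z hz _ (hu1 x z hz)
        have h3 : ‖x.1.2.2 z‖ ^ (k : ℕ) ≤ 1 := pow_le_one₀ (norm_nonneg _) (x.2.2.1.2 z hz)
        calc _ ≤ (1 : ℝ) * 1 := by gcongr
          _ = 1 := one_mul _
      refine (Finset.sum_le_sum h1).trans ?_
      rw [Finset.sum_const, Finset.card_univ, Fintype.card_fin, nsmul_eq_mul]
      linarith
  obtain ⟨C, hC⟩ := cell_scF h (I := J) (F := fun x j z =>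
      (∑ k, x.1.2.1 j k z (fun l => x.1.1 l (α l z)) * x.1.2.2 z ^ (k : ℕ)) / ((K : ℂ) + 1))
    hUB (δ := δ / (K + 1)) (by positivity) (by
      intro x z hz
      have h1 := x.2.2.2.2.2.2 z hz
      simp only [norm_div, hKn]
      rw [← Finset.sum_div]
      gcongr) (cg ρ) (fun p hp => cg_supp h hp) (by
    intro p hp
    have hne : D.Nonempty := closure_nonempty_iff.1 ⟨p, hp.1⟩
    have hc : ∀ l, ∃ c : ℂ, α l p ∉ α l '' D → α l = c • cg ρ p := by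
      intro l
      by_cases hl : α l p ∈ α l '' D
      · exact ⟨0, fun h0 => absurd hl h0⟩
      · obtain ⟨c, -, hc⟩ := supp_eq h hne hp hl
        exact ⟨c, fun _ => hc⟩
    choose c hc using hc
    have hr : ∀ l, ∀ᶠ r in 𝓝[>] (0 : ℝ), α l p ∈ α l '' D → ∀ f : ℂ → ℂ, UB (α l '' D) f →
        ∀ z ∈ ball p r, ∀ z₀ ∈ ball p r, ‖f (α l z) - f (α l z₀)‖ < κ η := by
      intro l
      by_cases hl : α l p ∈ α l '' D
      · obtain ⟨r, hr, hrf⟩ := osc_ns h (hα l) hl hκ0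
        filter_upwards [Ioc_mem_nhdsGT hr] with s hs _ f hf z hz z₀ hz₀
        exact hrf f hf z (ball_subset_ball hs.2 hz) z₀ (ball_subset_ball hs.2 hz₀)
      · exact Eventually.of_forall fun _ h0 => absurd h0 hl
    obtain ⟨r, hr1, hr2⟩ := ((eventually_all.2 hr).and
      (Ioc_mem_nhdsGT (half_pos hκ0))).exists
    refine ⟨L, r, κ η, Q, hr2.1, hκ0, fun x => ?_⟩
    obtain ⟨⟨f, A, G⟩, hf, hG, hA1, hA2, hd, hlow⟩ := x
    obtain ⟨f', hf'⟩ : ∃ f' : Fin L → ℂ → ℂ, ∀ l, f' l =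
      if α l p ∈ α l '' D then (fun _ => 0) else fun w => f l (c l * w) := ⟨_, fun l => rfl⟩
    refine ⟨f', fun l => ?_, fun z₀ hz₀ => ?_⟩
    · rw [hf']
      split_ifs with hl
      · exact ⟨differentiableOn_const _, fun _ _ => by simp⟩
      · have hm : MapsTo (fun w => c l * w) (cg ρ p '' D) (α l '' D) := by
          rintro _ ⟨z, hz, rfl⟩
          refine ⟨z, hz, ?_⟩
          conv_lhs => rw [hc l hl]
          simp
        exact ⟨(hf l).1.comp (by fun_prop) hm, fun w hw => (hf l).2 _ (hm hw)⟩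
    · have hosc : ∀ z, (z ∈ D ∩ ball p r ∧ ∀ l, ‖f' l (cg ρ p z) - f' l (cg ρ p z₀)‖ < κ η) →
          ∀ l, ‖f l (α l z) - f l (α l z₀)‖ < κ η := by
        rintro z ⟨hz, hzf⟩ l
        by_cases hl : α l p ∈ α l '' D
        · exact hr1 l hl (f l) (hf l) z hz.2 z₀ hz₀.2
        · have h1 := hzf l
          rw [hf', if_neg hl] at h1
          have h2 : ∀ v, c l * cg ρ p v = α l v := by
            intro v
            conv_rhs => rw [hc l hl]
            simp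
          rw [h2, h2] at h1
          exact h1
      refine hQ (ℂ × ℂ) _ _ G (fun j k => A j k z₀ (fun l => f l (α l z₀)) / ((K : ℂ) + 1))
        (fun j => (hUB ⟨⟨f, A, G⟩, hf, hG, hA1, hA2, hd, hlow⟩ j).1.mono fun z hz => hz.1.1) ?_
        ⟨hG.1.mono fun z hz => hz.1.1, fun z hz => hG.2 z hz.1.1⟩ ?_ ?_
      · intro z hz
        have h1 := hlow z hz.1.1
        simp only [norm_div, hKn]
        rw [← Finset.sum_div]
        gcongr
      · intro j k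
        rw [norm_div, hKn, div_le_one hK]
        have h1 := hA1 j k z₀ hz₀.1 _ (hu1 ⟨⟨f, A, G⟩, hf, hG, hA1, hA2, hd, hlow⟩ z₀ hz₀.1)
        have : (0 : ℝ) ≤ K := Nat.cast_nonneg K
        change ‖A j k z₀ fun l => f l (α l z₀)‖ ≤ 1 at h1
        linarith
      · intro j z hz
        have h0 : ∑ k, A j k z (fun l => f l (α l z)) * G z ^ (k : ℕ) / ((K : ℂ) + 1) =
            (∑ k, A j k z (fun l => f l (α l z)) * G z ^ (k : ℕ)) / ((K : ℂ) + 1) := by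
          rw [Finset.sum_div]
        have h1 : (∑ k, A j k z (fun l => f l (α l z)) * G z ^ (k : ℕ)) / ((K : ℂ) + 1) -
            ∑ k, A j k z₀ (fun l => f l (α l z₀)) / ((K : ℂ) + 1) * G z ^ (k : ℕ) =
            (∑ k, (A j k z (fun l => f l (α l z)) - A j k z₀ (fun l => f l (α l z₀))) *
              G z ^ (k : ℕ)) / ((K : ℂ) + 1) := by
          rw [← h0, ← Finset.sum_sub_distrib, Finset.sum_div]
          refine Finset.sum_congr rfl fun k _ => ?_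
          field_simp
        rw [h1, norm_div, hKn, div_le_iff₀ hK]
        refine (norm_sum_le _ _).trans ?_
        have h2 : ∀ k ∈ (Finset.univ : Finset (Fin K)),
            ‖(A j k z (fun l => f l (α l z)) - A j k z₀ (fun l => f l (α l z₀))) *
              G z ^ (k : ℕ)‖ ≤ η := by
          intro k _
          rw [norm_mul, norm_pow]
          have h3 : ‖G z‖ ^ (k : ℕ) ≤ 1 := pow_le_one₀ (norm_nonneg _) (hG.2 z hz.1.1)
          have h4 : ‖z - z₀‖ < κ η := by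
            have e1 := hz.1.2
            have e2 := hz₀.2
            rw [mem_ball, dist_eq_norm] at e1 e2
            have e3 := norm_sub_le (z - p) (z₀ - p)
            rw [sub_sub_sub_cancel_right] at e3
            linarith [hr2.2]
          have h5 : ‖(fun l => f l (α l z)) - (fun l => f l (α l z₀))‖ < κ η := by
            rw [pi_norm_lt_iff hκ0]
            exact hosc z hz
          have h6 := hA2 j k η hη z hz.1.1 z₀ hz₀.1 _ _
            (hu1 ⟨⟨f, A, G⟩, hf, hG, hA1, hA2, hd, hlow⟩ z hz.1.1)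
            (hu1 ⟨⟨f, A, G⟩, hf, hG, hA1, hA2, hd, hlow⟩ z₀ hz₀.1) h4 h5
          calc _ ≤ η * 1 := by gcongr
            _ = η := mul_one _
        refine (Finset.sum_le_sum h2).trans ?_
        rw [Finset.sum_const, Finset.card_univ, Fintype.card_fin, nsmul_eq_mul]
        nlinarith)
  refine ⟨(K + 1 : ℝ)⁻¹ * C, ?_⟩
  intro f A G hf hG hA1 hA2 hd hlow
  obtain ⟨g, g1, g2, g3⟩ := hC ⟨⟨f, A, G⟩, hf, hG, hA1, hA2, hd, hlow⟩
  refine ⟨fun j z => ((K : ℂ) + 1)⁻¹ * g j z, fun j => (g1 j).const_mul _, fun j z hz => ?_,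
    fun z hz => ?_⟩
  · rw [norm_mul, norm_inv, hKn]
    have := g2 j z hz
    gcongr
  · refine Eq.trans ?_ (g3 z hz)
    refine Finset.sum_congr rfl fun j _ => ?_
    simp only [div_eq_mul_inv]
    ring

end Pool.Agent.Helper85K9.SC
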