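import Mathlib
import Pool.Agent.Helper85K9.SC.Main

/-!
Cells of functions of finitely many fixed linear functionals on a strictly convex domain.
-/

set_option autoImplicit false

open Metric Set Filter Topology

namespace Pool.Agent.Helper85K9.SC

open Pool.Agent.Y263.SC
open Pool.Agent.Y263.LF (Bez Bez.mono)

variable {D O : Set (ℂ × ℂ)} {ρ : ℂ × ℂ → ℝ}

/-- **Cell theorem** for functions of finitely many linear functionals. -/
theorem cell_lin (h : StrC D O ρ) (N L : ℕ) {δ : ℝ} (hδ : 0 < δ)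
    (α : Fin L → (ℂ × ℂ →L[ℂ] ℂ)) (hα : ∀ l, α l ≠ 0) {ε : ℝ} (hε : 0 < ε) (Q : ℝ) :
    ∃ C : ℝ, ∀ (f : Fin L → ℂ → ℂ) (F : Fin N → ℂ × ℂ → ℂ), (∀ l, UB (α l '' D) (f l)) →
      (∀ j, UB D (F j)) → (∀ z ∈ D, δ ≤ ∑ j, ‖F j z‖) →
      (∀ z₀ ∈ D, Bez {z | z ∈ D ∧ ∀ l, ‖f l (α l z) - f l (α l z₀)‖ < ε} F Q) → Bez D F C := by
  classical
  let J : Type := {x : (Fin L → ℂ → ℂ) × (Fin N → ℂ × ℂ → ℂ) // (∀ l, UB (α l '' D) (x.1 l)) ∧
      (∀ j, UB D (x.2 j)) ∧ (∀ z ∈ D, δ ≤ ∑ j, ‖x.2 j z‖) ∧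
      (∀ z₀ ∈ D, Bez {z | z ∈ D ∧ ∀ l, ‖x.1 l (α l z) - x.1 l (α l z₀)‖ < ε} x.2 Q)}
  obtain ⟨C, hC⟩ := cell_scF h (I := J) (F := fun x => x.1.2) (fun x => x.2.2.1) hδ
    (fun x => x.2.2.2.1) (cg ρ) (fun p hp => cg_supp h hp) (by
    intro p hp
    have hne : D.Nonempty := closure_nonempty_iff.1 ⟨p, hp.1⟩
    have hc : ∀ l, ∃ c : ℂ, α l p ∉ α l '' D → α l = c • cg ρ p := by
      intro l
      by_cases hl : α l p ∈ α l '' D
      · exact ⟨0, fun h0 => absurd hl h0⟩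
      · obtain ⟨c, -, hc⟩ := supp_eq h hne hp hl
        exact ⟨c, fun _ => hc⟩
    choose c hc using hc
    have hr : ∀ l, ∀ᶠ r in 𝓝[>] (0 : ℝ), α l p ∈ α l '' D → ∀ f : ℂ → ℂ, UB (α l '' D) f →
        ∀ z ∈ ball p r, ∀ z₀ ∈ ball p r, ‖f (α l z) - f (α l z₀)‖ < ε := by
      intro l
      by_cases hl : α l p ∈ α l '' D
      · obtain ⟨r, hr, hrf⟩ := osc_ns h (hα l) hl hε
        filter_upwards [Ioc_mem_nhdsGT hr] with s hs _ f hf z hz z₀ hz₀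
        exact hrf f hf z (ball_subset_ball hs.2 hz) z₀ (ball_subset_ball hs.2 hz₀)
      · exact Eventually.of_forall fun _ h0 => absurd h0 hl
    obtain ⟨r, hr1, hr2⟩ := ((eventually_all.2 hr).and self_mem_nhdsWithin).exists
    refine ⟨L, r, ε, Q, hr2, hε, fun x => ?_⟩
    obtain ⟨⟨f, F⟩, hf, hF, hlow, hbez⟩ := x
    obtain ⟨f', hf'⟩ : ∃ f' : Fin L → ℂ → ℂ, ∀ l, f' l =
      if α l p ∈ α l '' D then (fun _ => 0) else fun w => f l (c l * w) := ⟨_, fun l => rfl⟩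
    refine ⟨f', fun l => ?_, fun z₀ hz₀ => ?_⟩
    · rw [hf']
      split_ifs with hl
      · exact ⟨differentiableOn_const _, fun _ _ => by simp⟩
      · have hm : MapsTo (fun w => c l * w) (cg ρ p '' D) (α l '' D) := by
          rintro _ ⟨z, hz, rfl⟩
          refine ⟨z, hz, ?_⟩
          conv_lhs => rw [hc l hl]
          simp
        exact ⟨(hf l).1.comp (by fun_prop) hm, fun w hw => (hf l).2 _ (hm hw)⟩
    · refine (hbez z₀ hz₀.1).mono ?_ le_rfl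
      rintro z ⟨hz, hzf⟩
      refine ⟨hz.1, fun l => ?_⟩
      by_cases hl : α l p ∈ α l '' D
      · exact hr1 l hl (f l) (hf l) z hz.2 z₀ hz₀.2
      · have h1 := hzf l
        rw [hf', if_neg hl] at h1
        have h2 : ∀ v, c l * cg ρ p v = α l v := by
          intro v
          conv_rhs => rw [hc l hl]
          simp
        rw [h2, h2] at h1
        exact h1)
  exact ⟨C, fun f F hf hF hlow hbez => hC ⟨⟨f, F⟩, hf, hF, hlow, hbez⟩⟩

end Pool.Agent.Helper85K9.SC
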